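import Pool.Agent.H563.TW.Esym
import Pool.Graph.R_seed8.H38R2.CG3.All

/-!
# The number of the small primes outside a proper subgroup of the class group
-/

set_option autoImplicit false

namespace Pool.Agent.H563.TW

open Finset Filter NumberField Pool.Agent.H38R2.CG Pool.Agent.H38R2.CG2 Pool.Agent.H38R2.CG3
open scoped Classical

/-- the ideal classes of the prime ideals of norm `u` -/
def cls (K : Type) [Field K] [NumberField K] (u : ℕ) : Set (ClassGroup (𝓞 K)) :=
  {c | ∃ P : nonZeroDivisors (Ideal (𝓞 K)), (P : Ideal (𝓞 K)).IsPrime ∧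
    Ideal.absNorm (P : Ideal (𝓞 K)) = u ∧ ClassGroup.mk0 P = c}

theorem NB2 : P2_NB := T2_NB T_NB

theorem MD_eq (D : ℕ) (k : ℕ) (P : Finset ℕ) :
    MD D (P.powersetCard k) (fun _ => 1) = es (fun p => 1 + (chi D p : ℝ)) k P := by
  unfold MD es
  apply sum_congr rfl
  intro s _
  rw [one_mul]

theorem x_nonneg (D : ℕ) (p : ℕ) : 0 ≤ 1 + (chi D p : ℝ) := by
  have := (abs_le.1 (LMh.chi_abs_le' D p)).1
  linarith

theorem x_le (D : ℕ) (p : ℕ) : 1 + (chi D p : ℝ) ≤ 2 := by
  have := (abs_le.1 (LMh.chi_abs_le' D p)).2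
  linarith

/-- a purely numerical consequence -/
theorem numer (x : ℕ → ℝ) (hx : ∀ p, 0 ≤ x p) (hx2 : ∀ p, x p ≤ 2) (P W : Finset ℕ) (k : ℕ) (hk : 3 ≤ k)
    (hkN : 4 * k ^ 2 ≤ P.card) (hlow : 3 / 4 * (P.card.choose k : ℝ) ≤ es x k P)
    (hW : es x k (P \ W) ≤ 3 / 4 * es x k P) :
    (P.card : ℝ) ≤ 16 * k * W.card := by
  obtain ⟨j, rfl⟩ : ∃ j, k = j + 1 := ⟨k - 1, by omega⟩
  obtain ⟨A, hA⟩ : ∃ A : ℝ, A = ∑ p ∈ P, x p := ⟨_, rfl⟩
  have hA0 : 0 ≤ A := by
    rw [hA]
    exact sum_nonneg fun p _ => hx p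
  have hNk : j + 1 ≤ P.card := by nlinarith
  have hch : (0 : ℝ) < (P.card.choose (j + 1) : ℝ) := by
    exact_mod_cast Nat.choose_pos hNk
  have hek : 0 < es x (j + 1) P := by linarith
  have h1 := es_sdiff x hx hx2 P j W
  have h2 := es_ge x hx hx2 P j
  have h3 := es_le x hx P j
  rw [← hA] at h2 h3
  have hej : 0 < es x j P := by
    by_contra hcon
    have h0 : es x j P = 0 := le_antisymm (not_lt.1 hcon) (es_nonneg x hx j P)
    rw [h0, mul_zero] at h3
    have : (0 : ℝ) < ((j : ℝ) + 1) * es x (j + 1) P := by positivity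
    linarith
  -- lower bound of `A`
  have hAlow : 3 / 4 * ((P.card : ℝ) + 1 - (j + 1)) ≤ A := by
    have h4 := es_le_pow x hx P (j + 1)
    rw [← hA] at h4
    have h5 : ((j + 1).factorial : ℝ) * (P.card.choose (j + 1) : ℝ) = (P.card.descFactorial (j + 1) : ℝ) := by
      rw [Nat.descFactorial_eq_factorial_mul_choose]
      push_cast
      ring
    have h6 : ((P.card + 1 - (j + 1) : ℕ) : ℝ) ^ (j + 1) ≤ (P.card.descFactorial (j + 1) : ℝ) := by
      exact_mod_cast Nat.pow_sub_le_descFactorial P.card (j + 1)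
    have h7 : ((P.card + 1 - (j + 1) : ℕ) : ℝ) = (P.card : ℝ) + 1 - (j + 1) := by
      rw [Nat.cast_sub (by omega)]
      push_cast
      ring
    rw [h7] at h6
    have h8 : 0 ≤ (P.card : ℝ) + 1 - (j + 1) := by
      have : ((j + 1 : ℕ) : ℝ) ≤ P.card := by exact_mod_cast hNk
      push_cast at this
      linarith
    have h9 : (3 / 4 * ((P.card : ℝ) + 1 - (j + 1))) ^ (j + 1) ≤ A ^ (j + 1) := by
      calc (3 / 4 * ((P.card : ℝ) + 1 - (j + 1))) ^ (j + 1)
          = (3 / 4 : ℝ) ^ (j + 1) * ((P.card : ℝ) + 1 - (j + 1)) ^ (j + 1) := by rw [mul_pow]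
        _ ≤ 3 / 4 * ((P.card : ℝ) + 1 - (j + 1)) ^ (j + 1) := by
            apply mul_le_mul_of_nonneg_right _ (by positivity)
            calc (3 / 4 : ℝ) ^ (j + 1) ≤ (3 / 4 : ℝ) ^ 1 :=
                  pow_le_pow_of_le_one (by norm_num) (by norm_num) (by omega)
              _ = 3 / 4 := pow_one _
        _ ≤ 3 / 4 * (P.card.descFactorial (j + 1) : ℝ) := by linarith
        _ = ((j + 1).factorial : ℝ) * (3 / 4 * (P.card.choose (j + 1) : ℝ)) := by
            rw [← h5]
            ring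
        _ ≤ ((j + 1).factorial : ℝ) * es x (j + 1) P := mul_le_mul_of_nonneg_left hlow (by positivity)
        _ ≤ A ^ (j + 1) := h4
    exact le_of_pow_le_pow_left₀ (by omega) hA0 h9
  have h5 : es x (j + 1) P ≤ 8 * W.card * es x j P := by linarith
  have h6 : (A - 2 * j) * es x j P ≤ (8 * (j + 1) * W.card) * es x j P := by
    calc (A - 2 * j) * es x j P ≤ ((j : ℝ) + 1) * es x (j + 1) P := h2
      _ ≤ ((j : ℝ) + 1) * (8 * W.card * es x j P) := mul_le_mul_of_nonneg_left h5 (by positivity)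
      _ = _ := by ring
  have h7 : A - 2 * j ≤ 8 * (j + 1) * W.card := le_of_mul_le_mul_right h6 hej
  have h8 : (4 * (j + 1) ^ 2 : ℝ) ≤ P.card := by exact_mod_cast hkN
  have h9 : (2 : ℝ) ≤ j := by
    have : 2 ≤ j := by omega
    exact_mod_cast this
  have h10 : (12 : ℝ) * (j + 1) ≤ 4 * (j + 1) ^ 2 := by nlinarith
  push_cast
  linarith

/-- the sum of the square deviations controls the proportion of a proper subgroup -/
theorem prop_le (G : Type) [CommGroup G] [Fintype G] (H : Subgroup G) (hH : H ≠ ⊤) (v : G → ℝ) (h : ℝ)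
    (hh : h = Nat.card G) (hv : (∑ C : G, (v C - 1 / h) ^ 2) / h ≤ 1 / 8 * (1 / h) ^ 2) :
    ∑ C ∈ univ.filter (fun C => C ∈ H), v C ≤ 3 / 4 := by
  have hpos : 0 < h := by
    rw [hh]
    exact_mod_cast Nat.card_pos
  have h1 : ∑ C : G, (v C - 1 / h) ^ 2 ≤ 1 / (8 * h) := by
    rw [div_le_iff₀ hpos] at hv
    refine hv.trans (le_of_eq ?_)
    field_simp
  have h2 : ∑ C ∈ univ.filter (fun C => C ∈ H), (v C - 1 / h) ^ 2 ≤ 1 / (8 * h) := by
    refine le_trans ?_ h1
    apply sum_le_sum_of_subset_of_nonneg (filter_subset _ _)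
    intro C _ _
    positivity
  have hcard : ((univ.filter (fun C => C ∈ H)).card : ℝ) = Nat.card H := by
    rw [Nat.card_eq_fintype_card, Fintype.card_subtype]
  have hidx : 2 * (Nat.card H : ℝ) ≤ h := by
    have h3 := Subgroup.card_mul_index H
    have h4 : H.index ≠ 0 := Subgroup.index_ne_zero_of_finite
    have h5 : H.index ≠ 1 := fun h => hH (Subgroup.index_eq_one.1 h)
    have h6 : 2 ≤ H.index := by omega
    have h7 : Nat.card H * 2 ≤ Nat.card G := by
      rw [← h3]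
      exact Nat.mul_le_mul_left _ h6
    rw [hh]
    have h8 : ((Nat.card H * 2 : ℕ) : ℝ) ≤ (Nat.card G : ℝ) := by exact_mod_cast h7
    push_cast at h8
    linarith
  have h3 : ∀ C ∈ univ.filter (fun C => C ∈ H), v C ≤ 1 / h + (h * (v C - 1 / h) ^ 2 + 1 / (4 * h)) := by
    intro C _
    have h4 : 0 ≤ h * (v C - 1 / h - 1 / (2 * h)) ^ 2 := by positivity
    have h5 : h * (v C - 1 / h - 1 / (2 * h)) ^ 2 =
        h * (v C - 1 / h) ^ 2 - (v C - 1 / h) + 1 / (4 * h) := by
      field_simp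
      ring
    linarith
  refine (sum_le_sum h3).trans ?_
  rw [sum_add_distrib, sum_add_distrib, sum_const, sum_const, nsmul_eq_mul, nsmul_eq_mul, ← mul_sum, hcard]
  have h4 : (Nat.card H : ℝ) * (1 / h) ≤ 1 / 2 := by
    rw [mul_one_div, div_le_iff₀ hpos]
    linarith
  have h5 : (Nat.card H : ℝ) * (1 / (4 * h)) ≤ 1 / 8 := by
    rw [mul_one_div, div_le_iff₀ (by positivity)]
    linarith
  have h6 : h * ∑ C ∈ univ.filter (fun C => C ∈ H), (v C - 1 / h) ^ 2 ≤ 1 / 8 := by
    calc h * ∑ C ∈ univ.filter (fun C => C ∈ H), (v C - 1 / h) ^ 2 ≤ h * (1 / (8 * h)) :=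
          mul_le_mul_of_nonneg_left h2 hpos.le
      _ = 1 / 8 := by field_simp
  linarith

/-- The main lemma: for a discriminant `D` which is not exceptional, many of the primes in `(y, 2y]` have a prime
ideal outside any given proper subgroup, and the class number is at most `X ^ 3`. -/
theorem outside (hN0 : P_N0) (hN1 : P_N1) (hN3 : P_N3) (h4 : P_N4) (hKF : P_KF)
    (h5b : P_N5b) (hN6 : P_N6) (a : ℝ) (ha : 2 < a) : ∃ X1 : ℕ, ∀ X : ℕ, X1 ≤ X → ∀ D : ℕ, IsFund D →
    ∀ (K : Type) [Field K] [NumberField K], Module.finrank ℚ K = 2 → NumberField.discr K = (D : ℤ) →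
      ¬ Bd a (1 / 8) X D → 3 / 4 * NA a X ≤ MD D (SA a X) (fun _ => 1) →
      (∀ H : Subgroup (ClassGroup (𝓞 K)), H ≠ ⊤ → ((PA a X).card : ℝ) ≤ 16 * kA a X *
        (((PA a X).filter (fun u => ∃ c ∈ cls K u, c ∉ H)).card : ℝ)) ∧
      (Nat.card (ClassGroup (𝓞 K)) : ℝ) ≤ (X : ℝ) ^ 3 := by
  obtain ⟨X2, hX2⟩ := NB2 a ha (1 / 4) (by norm_num)
  have ev : ∀ᶠ X : ℕ in atTop, (9 : ℝ) ≤ Real.log X := by
    have := Real.tendsto_log_atTop.comp (tendsto_natCast_atTop_atTop (R := ℝ))
    exact this.eventually_ge_atTop _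
  obtain ⟨X3, hX3⟩ := eventually_atTop.1 ev
  refine ⟨max (max X2 X3) 2, ?_⟩
  intro X hX D hD K _ _ h2 hK hBd hM
  have hX2' : X2 ≤ X := (le_max_left _ _).trans ((le_max_left _ _).trans hX)
  have hX3' : X3 ≤ X := (le_max_right _ _).trans ((le_max_left _ _).trans hX)
  have hX22 : 2 ≤ X := (le_max_right _ _).trans hX
  obtain ⟨-, -, hk2, hklog, hksq, hyX, h4k, -⟩ := hX2 X hX2'
  have hlog9 := hX3 X hX3'
  obtain ⟨k, hk⟩ : ∃ k, k = kA a X := ⟨_, rfl⟩
  obtain ⟨y, hy⟩ : ∃ y, y = yA a X := ⟨_, rfl⟩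
  have hk3 : 3 ≤ k := by
    have h1 : (3 : ℝ) ≤ √(Real.log X) := by
      rw [show (3 : ℝ) = √(9 : ℝ) by
        rw [show (9 : ℝ) = 3 ^ 2 by norm_num, Real.sqrt_sq (by norm_num)]]
      exact Real.sqrt_le_sqrt hlog9
    have h5 : (3 : ℝ) ≤ k := by
      rw [hk]
      exact h1.trans hksq
    exact_mod_cast h5
  have h4k' : 4 * k ^ 2 ≤ (PA a X).card := by
    rw [hk]
    exact_mod_cast h4k
  have hcardy : (PA a X).card ≤ y := by
    unfold PA PP
    refine (card_filter_le _ _).trans ?_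
    rw [Nat.card_Ioc, ← hy]
    omega
  have hy2 : 2 ≤ yA a X := by
    rw [← hy]
    nlinarith
  have hSA : SA a X = (PA a X).powersetCard k := by
    unfold SA
    rw [← hk]
  have hNA : NA a X = ((PA a X).card.choose k : ℝ) := by
    unfold NA CA
    rw [← hk]
  have hequi : Equi K (yA a X) (kA a X) (1 / 8) := by
    by_contra hne
    exact hBd (bd_of_not_equi hN0 hN1 hN3 h4 hKF h5b hN6 a (1 / 8) X D hy2 hD K h2 hK hne)
  obtain ⟨hTpos, hms⟩ := hequi
  obtain ⟨T, hT⟩ : ∃ T : ℕ, T = ∑ C : ClassGroup (𝓞 K), cnt K (yA a X) (kA a X) C := ⟨_, rfl⟩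
  rw [← hT] at hTpos hms
  have hTr : (0 : ℝ) < T := by exact_mod_cast hTpos
  have hPAprime : ∀ p ∈ PA a X, p.Prime ∧ p ≠ 2 := by
    intro p hp
    simp only [PA, PP, mem_filter, mem_Ioc] at hp
    exact ⟨hp.2, by omega⟩
  have hf : ∀ P : Finset ℕ, P ⊆ PA a X → ∀ s ∈ P.powersetCard k,
      (0 : ℝ) ≤ (fun _ : Finset ℕ => (1 : ℝ)) s ∧ ∀ p ∈ s, p.Prime ∧ p ≠ 2 := by
    intro P hP s hs
    exact ⟨zero_le_one, fun p hp => hPAprime p (hP ((mem_powersetCard.1 hs).1 hp))⟩
  have hcnt : ∀ C : ClassGroup (𝓞 K), (cnt K (yA a X) (kA a X) C : ℝ) =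
      MC K ((PA a X).powersetCard k) (fun _ => 1) C := by
    intro C
    rw [cnt_eq, ← hk]
    rfl
  have hTM : (T : ℝ) = es (fun p => 1 + (chi D p : ℝ)) k (PA a X) := by
    rw [← MD_eq, ← (nf_classes hN0 hN1 hN3 h4 hKF h5b hN6 K D hD h2 hK ((PA a X).powersetCard k) (fun _ => 1)
      (hf _ subset_rfl)).2, hT]
    push_cast
    exact sum_congr rfl fun C _ => hcnt C
  have hx := x_nonneg D
  have hx2 := x_le D
  constructor
  · intro H hH
    obtain ⟨W, hW⟩ : ∃ W, W = (PA a X).filter (fun u => ∃ c ∈ cls K u, c ∉ H) := ⟨_, rfl⟩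
    rw [← hW, ← hk]
    apply numer (fun p => 1 + (chi D p : ℝ)) hx hx2 (PA a X) W k hk3 h4k'
    · rw [← hNA, ← MD_eq, ← hSA]
      exact hM
    · -- the ideals with all prime factors outside `W`
      have h5 := (nf_classes hN0 hN1 hN3 h4 hKF h5b hN6 K D hD h2 hK ((PA a X \ W).powersetCard k) (fun _ => 1)
        (hf _ sdiff_subset)).2
      rw [MD_eq] at h5
      have h6 : ∀ C : ClassGroup (𝓞 K), C ∉ H → MC K ((PA a X \ W).powersetCard k) (fun _ => 1) C = 0 := by
        intro C hC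
        unfold MC
        apply sum_eq_zero
        intro s hs
        rw [one_mul, Nat.cast_eq_zero]
        apply Nat.card_eq_zero.2
        left
        rw [isEmpty_subtype]
        rintro I ⟨hI1, hI2⟩
        have hsub := (mem_powersetCard.1 hs).1
        have hsp : ∀ p ∈ s, p.Prime := fun p hp => (hPAprime p (sdiff_subset (hsub hp))).1
        obtain ⟨L, hL1, _, hL3⟩ := factor K s hsp I hI1
        apply hC
        rw [← hI2, ← hL3]
        apply Subgroup.multiset_prod_mem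
        intro c hc
        obtain ⟨P, hP, rfl⟩ := Multiset.mem_map.1 hc
        obtain ⟨hPp, hPs⟩ := hL1 P hP
        have hu := Finset.mem_sdiff.1 (hsub hPs)
        by_contra hcH
        apply hu.2
        rw [hW, Finset.mem_filter]
        exact ⟨hu.1, _, ⟨P, hPp, rfl, rfl⟩, hcH⟩
      have h7 : ∑ C ∈ univ.filter (fun C => C ∈ H), (cnt K (yA a X) (kA a X) C : ℝ) / T ≤ 3 / 4 :=
        prop_le (ClassGroup (𝓞 K)) H hH (fun C => (cnt K (yA a X) (kA a X) C : ℝ) / T) _ rfl hms
      have h8 : ∑ C ∈ univ.filter (fun C => C ∈ H), (cnt K (yA a X) (kA a X) C : ℝ) ≤ 3 / 4 * T := by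
        rw [← sum_div, div_le_iff₀ hTr] at h7
        exact h7
      rw [← h5, ← hTM]
      refine le_trans ?_ h8
      have h9 : ∑ C : ClassGroup (𝓞 K), MC K ((PA a X \ W).powersetCard k) (fun _ => 1) C =
          ∑ C ∈ univ.filter (fun C => C ∈ H), MC K ((PA a X \ W).powersetCard k) (fun _ => 1) C := by
        rw [sum_filter]
        apply sum_congr rfl
        intro C _
        by_cases hC : C ∈ H
        · rw [if_pos hC]
        · rw [if_neg hC, h6 C hC]
      rw [h9]
      apply sum_le_sum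
      intro C _
      rw [hcnt C]
      unfold MC
      apply sum_le_sum_of_subset_of_nonneg
      · exact powersetCard_mono sdiff_subset
      · intro s _ _
        positivity
  · -- the class number
    obtain ⟨h, hh⟩ : ∃ h : ℝ, h = (Nat.card (ClassGroup (𝓞 K)) : ℝ) := ⟨_, rfl⟩
    rw [← hh] at hms ⊢
    have hh0 : 0 < h := by rw [hh]; exact_mod_cast Nat.card_pos
    have hhT : h ≤ 2 * T := by
      have g1 : ∑ C : ClassGroup (𝓞 K), ((cnt K (yA a X) (kA a X) C : ℝ) / (T : ℝ) - 1 / h) ^ 2 ≤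
          1 / (8 * h) := by
        rw [div_le_iff₀ hh0] at hms
        refine hms.trans (le_of_eq ?_)
        field_simp
      have g2 : ((univ.filter (fun C : ClassGroup (𝓞 K) => cnt K (yA a X) (kA a X) C = 0)).card : ℝ) *
          (1 / h) ^ 2 ≤ 1 / (8 * h) := by
        refine le_trans ?_ g1
        rw [← nsmul_eq_mul, ← sum_const]
        refine le_trans (le_of_eq ?_) (sum_le_sum_of_subset_of_nonneg (filter_subset
          (fun C : ClassGroup (𝓞 K) => cnt K (yA a X) (kA a X) C = 0) univ) (fun C _ _ => sq_nonneg _))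
        apply sum_congr rfl
        intro C hC
        rw [(mem_filter.1 hC).2]
        push_cast
        ring
      have g3 : ((univ.filter (fun C : ClassGroup (𝓞 K) => cnt K (yA a X) (kA a X) C = 0)).card : ℝ) ≤
          h / 8 := by
        have e1 : (1 / h) ^ 2 = 1 / h ^ 2 := by ring
        rw [e1, mul_one_div, div_le_div_iff₀ (by positivity) (by positivity)] at g2
        have e2 : (0 : ℝ) < h := hh0
        nlinarith
      have g4 : ((univ.filter (fun C : ClassGroup (𝓞 K) => ¬ cnt K (yA a X) (kA a X) C = 0)).card : ℝ) ≤ T := by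
        have e1 : (univ.filter (fun C : ClassGroup (𝓞 K) => ¬ cnt K (yA a X) (kA a X) C = 0)).card ≤ T := by
          rw [hT, card_eq_sum_ones]
          refine le_trans (sum_le_sum (g := fun C => cnt K (yA a X) (kA a X) C) ?_)
            (sum_le_sum_of_subset (filter_subset _ _))
          intro C hC
          have := (mem_filter.1 hC).2
          omega
        exact_mod_cast e1
      have g5 : ((univ.filter (fun C : ClassGroup (𝓞 K) => cnt K (yA a X) (kA a X) C = 0)).card : ℝ) +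
          ((univ.filter (fun C : ClassGroup (𝓞 K) => ¬ cnt K (yA a X) (kA a X) C = 0)).card : ℝ) = h := by
        have e1 := card_filter_add_card_filter_not (s := (univ : Finset (ClassGroup (𝓞 K))))
          (fun C => cnt K (yA a X) (kA a X) C = 0)
        rw [hh, Nat.card_eq_fintype_card, ← card_univ, ← e1]
        push_cast
        rfl
      linarith
    have hA : ∑ p ∈ PA a X, (1 + (chi D p : ℝ)) ≤ 2 * (PA a X).card := by
      calc ∑ p ∈ PA a X, (1 + (chi D p : ℝ)) ≤ ∑ _p ∈ PA a X, (2 : ℝ) := sum_le_sum fun p _ => hx2 p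
        _ = 2 * (PA a X).card := by rw [sum_const, nsmul_eq_mul]; ring
    have hA0 : 0 ≤ ∑ p ∈ PA a X, (1 + (chi D p : ℝ)) := sum_nonneg fun p _ => hx p
    have hes : (T : ℝ) ≤ (2 * y : ℝ) ^ k := by
      rw [hTM]
      have g1 := es_le_pow (fun p => 1 + (chi D p : ℝ)) hx (PA a X) k
      have g2 : (1 : ℝ) ≤ k.factorial := by exact_mod_cast Nat.one_le_iff_ne_zero.2 (Nat.factorial_ne_zero k)
      have g3 := es_nonneg (fun p => 1 + (chi D p : ℝ)) hx k (PA a X)
      calc es (fun p => 1 + (chi D p : ℝ)) k (PA a X) ≤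
            (k.factorial : ℝ) * es (fun p => 1 + (chi D p : ℝ)) k (PA a X) := by nlinarith
        _ ≤ (∑ p ∈ PA a X, (1 + (chi D p : ℝ))) ^ k := g1
        _ ≤ (2 * y : ℝ) ^ k := by
            apply pow_le_pow_left₀ hA0
            have : ((PA a X).card : ℝ) ≤ y := by exact_mod_cast hcardy
            linarith
    have hXr : (2 : ℝ) ≤ X := by exact_mod_cast hX22
    have hy1 : (1 : ℝ) < y := by
      have : 1 < y := by rw [hy]; omega
      exact_mod_cast this
    have hyk : (y : ℝ) ^ (k - 1) ≤ X := by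
      have g1 : ((k - 1 : ℕ) : ℝ) ≤ th a * Real.log X / Real.log y := by
        rw [hk, hy]
        unfold kA
        rw [Nat.add_sub_cancel]
        apply Nat.floor_le
        have := (th_lt_one a ha).2
        have h0 : 0 < Real.log (yA a X) := by
          rw [← hy]
          exact Real.log_pos hy1
        positivity
      have h0 : 0 < Real.log y := Real.log_pos hy1
      rw [le_div_iff₀ h0] at g1
      have g2 : ((k - 1 : ℕ) : ℝ) * Real.log y ≤ Real.log X := by
        refine g1.trans ?_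
        have := (th_lt_one a ha).1
        have h9 : 0 ≤ Real.log X := by linarith
        nlinarith
      rw [← Real.log_pow] at g2
      exact (Real.log_le_log_iff (by positivity) (by linarith)).1 g2
    have hyX' : (y : ℝ) ≤ (X : ℝ) ^ (1 / 4 : ℝ) := by
      rw [hy]
      exact hyX
    have hk2' : (2 : ℝ) ^ k ≤ (X : ℝ) ^ (1 / 4 : ℝ) := by
      rw [hk]
      exact hk2
    have hX0 : (0 : ℝ) < X := by linarith
    have hfin : (2 * y : ℝ) ^ k ≤ (X : ℝ) ^ 2 := by
      calc (2 * y : ℝ) ^ k = (2 : ℝ) ^ k * ((y : ℝ) * (y : ℝ) ^ (k - 1)) := by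
            rw [mul_pow, ← pow_succ', show k - 1 + 1 = k by omega]
        _ ≤ (X : ℝ) ^ (1 / 4 : ℝ) * ((X : ℝ) ^ (1 / 4 : ℝ) * X) := by
            apply mul_le_mul hk2' _ (by positivity) (by positivity)
            apply mul_le_mul hyX' hyk (by positivity) (by positivity)
        _ = (X : ℝ) ^ (3 / 2 : ℝ) := by
            nth_rewrite 3 [← Real.rpow_one (X : ℝ)]
            rw [← Real.rpow_add hX0, ← Real.rpow_add hX0]
            norm_num
        _ ≤ (X : ℝ) ^ (2 : ℝ) := Real.rpow_le_rpow_of_exponent_le (by linarith) (by norm_num)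
        _ = (X : ℝ) ^ 2 := by norm_num
    calc h ≤ 2 * T := hhT
      _ ≤ 2 * (X : ℝ) ^ 2 := by linarith
      _ ≤ X * (X : ℝ) ^ 2 := mul_le_mul_of_nonneg_right hXr (by positivity)
      _ = (X : ℝ) ^ 3 := by ring

end Pool.Agent.H563.TW
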