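import Pool.Agent.H563.TW.Cls

/-!
# Few exceptional discriminants, in short intervals and among the primes
-/

set_option autoImplicit false

namespace Pool.Agent.H563.TW

open Finset Filter NumberField Pool.Agent.H38R2.CG Pool.Agent.H38R2.CG2 Pool.Agent.H38R2.CG.AS1h
open Pool.Agent.H38R2.CG.FINh Pool.Agent.H38R2.CG3
open scoped Classical

/-- the inputs from the library -/
theorem inputs : (P_N0 ∧ P_N0d ∧ P_N1 ∧ P_N3 ∧ P_N4 ∧ P_KF ∧ P_N5b ∧ P_N6) ∧ P2_TRIV ∧ P_NB ∧ P2_MLOW ∧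
    P3_AS0 ∧ P2_BH ∧ P2_RC := by
  have h_P_N0 : P_N0 := T_N0
  have h_P_N0d : P_N0d := T_N0d
  have h_P_SPL : P_SPL := T_SPL h_P_N0
  have h_P_N1 : P_N1 := T_N1 h_P_SPL
  have h_P_N2 : P_N2 := T_N2 h_P_SPL
  have h_P_KR : P_KR := T_KR
  have h_P_PV : P_PV := T_PV
  have h_P_N3a : P_N3a := T_N3a h_P_KR h_P_PV
  have h_P_N3b : P_N3b := T_N3b h_P_KR h_P_PV h_P_N3a
  have h_P_N3 : P_N3 := T_N3 h_P_N2 h_P_N3b
  have h_P_N4a : P_N4a := T_N4a
  have h_P_N4b : P_N4b := T_N4b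
  have h_P_N4 : P_N4 := T_N4 h_P_N4a h_P_N4b
  have h_P_KF : P_KF := T_KF
  have h_P_N5b : P_N5b := T_N5b h_P_KF h_P_N4
  have h_P_N6 : P_N6 := T_N6 h_P_KF
  have h_P2_TRIV : P2_TRIV := T2_TRIV
  have h_P_N0e : P_N0e := T_N0e h_P_N0d
  have h_P_N5a : P_N5a := T_N5a h_P_KF
  have h_P_N5 : P_N5 := T_N5 h_P_N3 h_P_N4 h_P_N5a h_P_N5b
  have h_P_NF : P_NF := T_NF h_P_N0 h_P_N0e h_P_N1 h_P_N3 h_P_N5 h_P_N6
  have h_P_NB : P_NB := T_NB
  have h_P2_NB : P2_NB := T2_NB h_P_NB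
  have h_P2_WT : P2_WT := T2_WT
  have h_P2_V0 : P2_V0 := T2_V0 h_P2_WT
  have h_P2_V1 : P2_V1 := T2_V1 h_P_PV h_P2_WT
  have h_P2_LM : P2_LM := T2_LM h_P_N3a h_P2_WT h_P2_V0 h_P2_V1
  have h_P2_SZ : P2_SZ := T2_SZ
  have h_P2_M1L : P2_M1L := T2_M1L h_P2_SZ h_P2_NB h_P2_WT h_P2_V0 h_P2_V1
  have h_P2_COMB : P2_COMB := T2_COMB
  have h_P2_PAIR : P2_PAIR := T2_PAIR
  have h_P2_MLOW : P2_MLOW := T2_MLOW h_P2_SZ h_P2_NB h_P2_COMB h_P2_PAIR h_P2_WT h_P2_V0 h_P2_V1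
  have h_P_TB2 : P_TB2 := T_TB2
  have h_P2_T1a : P2_T1a := T2_T1a
  have h_P2_T1 : P2_T1 := T2_T1 h_P2_WT h_P2_T1a
  have h_P2_R1 : P2_R1 := T2_R1
  have h_P2_R2 : P2_R2 := T2_R2
  have h_P2_T2 : P2_T2 := T2_T2 h_P2_R1 h_P2_R2
  have h_P2_JP : P2_JP := T2_JP
  have h_P_TB3a : P_TB3a := T_TB3a
  have h_P2_ERR : P2_ERR := T2_ERR h_P2_SZ h_P2_NB h_P2_WT h_P2_V0 h_P2_R1 h_P_TB3a
  have h_P2_FJ : P2_FJ := T2_FJ
  have h_P2_OMC : P2_OMC := T2_OMC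
  have h_P2_OM : P2_OM := T2_OM h_P_TB2 h_P2_FJ h_P2_OMC
  have h_P_TB3c : P_TB3c := T_TB3c
  have h_P_TB6b : P_TB6b := T_TB6b
  have h_P_TB6c : P_TB6c := T_TB6c
  have h_P2_FS : P2_FS := T2_FS
  have h_P2_JX : P2_JX := T2_JX
  have h_P2_KB : P2_KB := T2_KB
  have h_P2_HS : P2_HS := T2_HS
  have h_P_LS : P_LS := T_LS
  have h_P_CC5 : P_CC5 := T_CC5 h_P_LS h_P_NB
  have h_P_CC6 : P_CC6 := T_CC6 h_P_NB
  have h_P2_CC7 : P2_CC7 := T2_CC7 h_P_CC5 h_P_CC6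
  have h_P_CC1 : P_CC1 := T_CC1
  have h_P_BT : P_BT := T_BT
  have h_P_CC3 : P_CC3 := T_CC3 h_P_BT h_P_NB
  have h_P2_CC4 : P2_CC4 := T2_CC4 h_P_CC1 h_P_CC3
  have h_P2_NBAD : P2_NBAD := T2_NBAD h_P2_NB h_P2_CC4
  have h_P2_TC : P2_TC := T2_TC h_P2_NB h_P2_FJ h_P2_FS h_P2_JX h_P2_KB h_P2_HS h_P2_CC7 h_P2_NBAD
  have h_P_TB6a : P_TB6a := T_TB6a
  have h_P2_TD : P2_TD := T2_TD h_P_TB6a h_P_TB3c
  have h_P2_TE : P2_TE := T2_TE h_P2_NB h_P2_FJ h_P2_FS h_P2_JX h_P2_KB h_P2_HS h_P2_CC7 h_P2_NBAD h_P2_TD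
  have h_P2_TA : P2_TA := T2_TA h_P_TB3c h_P_TB6b h_P_TB6c h_P2_FJ h_P2_JP h_P2_TC h_P2_TE
  have h_P2_TMa : P2_TMa := T2_TMa h_P2_SZ h_P2_NB h_P_TB2 h_P2_FJ h_P2_JP h_P2_OMC h_P2_OM h_P2_TA
  have h_P2_TMb : P2_TMb := T2_TMb h_P2_SZ h_P2_NB h_P_TB2 h_P_TB3c h_P2_FJ h_P2_JP h_P2_OMC h_P2_OM h_P2_TC
  have h_P2_TC0 : P2_TC0 := T2_TC0 h_P2_FJ h_P2_JX h_P2_KB h_P2_HS
  have h_P2_TMc : P2_TMc := T2_TMc h_P2_SZ h_P2_NB h_P_TB2 h_P_TB3c h_P2_FJ h_P2_JP h_P2_OMC h_P2_OM h_P2_TC0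
  have h_P2_TM : P2_TM := T2_TM h_P2_SZ h_P2_NB h_P2_COMB h_P2_PAIR h_P_TB2 h_P2_WT h_P2_T1 h_P2_T2 h_P2_JP h_P2_ERR h_P2_TMa h_P2_TMb h_P2_TMc
  have h_P3_AS0 : P3_AS0 := T3_AS0 h_P_NF h_P2_NB h_P2_WT h_P2_LM h_P2_M1L h_P2_MLOW h_P2_TM
  have h_P2_BF : P2_BF := T2_BF
  have h_P2_HB : P2_HB := T2_HB
  have h_P2_HD : P2_HD := T2_HD h_P2_BF h_P2_HB
  have h_P2_CH : P2_CH := T2_CH
  have h_P2_BHa : P2_BHa := T2_BHa
  have h_P2_MP : P2_MP := T2_MP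
  have h_P2_BHc : P2_BHc := T2_BHc h_P2_BF h_P2_HB h_P2_CH h_P2_MP h_P2_BHa
  have h_P2_BH : P2_BH := T2_BH h_P2_BF h_P2_HB h_P2_HD h_P2_CH h_P2_BHa h_P2_BHc
  have h_P2_RC : P2_RC := T2_RC

  exact ⟨⟨h_P_N0, h_P_N0d, h_P_N1, h_P_N3, h_P_N4, h_P_KF, h_P_N5b, h_P_N6⟩, h_P2_TRIV, h_P_NB, h_P2_MLOW,
    h_P3_AS0, h_P2_BH, h_P2_RC⟩

/-- exceptional discriminants -/
def BX (a : ℝ) (X D : ℕ) : Prop :=
  Bd a (1 / 8) X D ∨ MD D (SA a X) (fun _ => 1) < 3 / 4 * NA a X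

/-- few exceptional discriminants, in the weighted sense -/
def PX_AS0 : Prop := ∀ a : ℝ, 2 < a → ∀ C0 : ℕ, 1 ≤ C0 → ∀ ε : ℝ, 0 < ε →
  ∃ z0 : ℕ, ∀ z ≥ z0,
  ∃ η1 : ℝ, 0 < η1 ∧ ∀ η : ℝ, 0 < η → η ≤ η1 → ∀ r : ℕ, FundRes z r → ∃ X0 : ℕ, ∀ X ≥ X0,
  ∀ ρ : ℕ → ℝ, SWt z X (PA a X) (cc a) C0 ρ →
    ∑ D ∈ (FD z r X η).filter (fun D => BX a X D), wt ρ D ≤ ε * WW z X η ρ

open APh in
theorem px_as0 (hAS : P3_AS0) (hML : P2_MLOW) : PX_AS0 := by
  intro a ha C0 hC0 ε hε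
  obtain ⟨z0, hz0⟩ := hAS a ha (1 / 8) (by norm_num) C0 hC0 (ε / 2) (by positivity)
  refine ⟨z0, fun z hz => ?_⟩
  obtain ⟨η1, hη1, H⟩ := hz0 z hz
  refine ⟨min η1 1, lt_min hη1 one_pos, fun η hη hηle r hr => ?_⟩
  obtain ⟨X1, hX1⟩ := H η hη (hηle.trans (min_le_left _ _)) r hr
  have he' : 0 < min (ε / 2) (1 / 4) := lt_min (by positivity) (by norm_num)
  obtain ⟨X2, hX2⟩ := hML a ha z r hr η hη (hηle.trans (min_le_right _ _)) C0 hC0 _ he'
  refine ⟨max (max X1 X2) 1, fun X hX ρ hρ => ?_⟩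
  have a1 : X1 ≤ X := (le_max_left _ _).trans ((le_max_left _ _).trans hX)
  have a2 : X2 ≤ X := (le_max_right _ _).trans ((le_max_left _ _).trans hX)
  have a3 : 1 ≤ X := (le_max_right _ _).trans hX
  have h1 := hX1 X a1 ρ hρ
  have h2 := hX2 X a2 ρ hρ
  have hcc1 : cc a ≤ 1 := by
    unfold cc
    rw [div_le_iff₀ (by linarith)]
    linarith
  have hGG : 0 ≤ GG X ρ := le_trans (by
    have : 0 ≤ Real.log X := Real.log_nonneg (by exact_mod_cast a3)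
    positivity) hρ.low
  have hWW : 0 ≤ WW z X η ρ := by
    unfold WW
    positivity
  have hwt : ∀ D ∈ DD z r X η, 0 ≤ wt ρ D := by
    intro D hD
    simp only [DD, Finset.mem_filter, Finset.mem_Ioc] at hD
    exact wt_nonneg a3 hcc1 hρ D (by omega)
  have hNA : 0 ≤ NA a X := by
    unfold NA CA
    positivity
  have hsub : (FD z r X η).filter (fun D => BX a X D) ⊆
      (FD z r X η).filter (fun D => Bd a (1 / 8) X D) ∪
        (DD z r X η).filter (fun D => MD D (SA a X) (fun _ => 1) < (1 - min (ε / 2) (1 / 4)) * NA a X) := by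
    intro D hD
    rw [Finset.mem_filter] at hD
    rcases hD.2 with h | h
    · exact Finset.mem_union_left _ (Finset.mem_filter.2 ⟨hD.1, h⟩)
    · refine Finset.mem_union_right _ (Finset.mem_filter.2 ⟨(Finset.mem_filter.1 hD.1).1, lt_of_lt_of_le h ?_⟩)
      have := min_le_right (ε / 2) (1 / 4 : ℝ)
      nlinarith
  have hw1 : ∀ D ∈ (FD z r X η).filter (fun D => Bd a (1 / 8) X D), 0 ≤ wt ρ D := fun D hD =>
    hwt D (Finset.mem_filter.1 (Finset.mem_filter.1 hD).1).1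
  have hw2 : ∀ D ∈ (DD z r X η).filter
      (fun D => MD D (SA a X) (fun _ => 1) < (1 - min (ε / 2) (1 / 4)) * NA a X), 0 ≤ wt ρ D := fun D hD =>
    hwt D (Finset.mem_filter.1 hD).1
  calc ∑ D ∈ (FD z r X η).filter (fun D => BX a X D), wt ρ D ≤
        ∑ D ∈ (FD z r X η).filter (fun D => Bd a (1 / 8) X D) ∪
          (DD z r X η).filter (fun D => MD D (SA a X) (fun _ => 1) < (1 - min (ε / 2) (1 / 4)) * NA a X),
          wt ρ D := by
        apply Finset.sum_le_sum_of_subset_of_nonneg hsub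
        intro D hD _
        rcases Finset.mem_union.1 hD with h | h
        · exact hw1 D h
        · exact hw2 D h
    _ ≤ ∑ D ∈ (FD z r X η).filter (fun D => Bd a (1 / 8) X D), wt ρ D +
          ∑ D ∈ (DD z r X η).filter
            (fun D => MD D (SA a X) (fun _ => 1) < (1 - min (ε / 2) (1 / 4)) * NA a X), wt ρ D := by
        rw [← Finset.sum_union_inter]
        have : 0 ≤ ∑ D ∈ ((FD z r X η).filter (fun D => Bd a (1 / 8) X D)) ∩
          (DD z r X η).filter (fun D => MD D (SA a X) (fun _ => 1) < (1 - min (ε / 2) (1 / 4)) * NA a X),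
          wt ρ D := Finset.sum_nonneg fun D hD => hw1 D (Finset.mem_inter.1 hD).1
        linarith
    _ ≤ ε / 2 * WW z X η ρ + ε / 2 * WW z X η ρ := by
        have h3 : min (ε / 2) (1 / 4) * WW z X η ρ ≤ ε / 2 * WW z X η ρ :=
          mul_le_mul_of_nonneg_right (min_le_left _ _) hWW
        linarith
    _ = ε * WW z X η ρ := by ring

/-- few exceptional discriminants in a short interval -/
theorem short_allX (ht : P2_TRIV) (h : PX_AS0) (a : ℝ) (ha : 2 < a) 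
    (ε : ℝ) (hε : 0 < ε) : ∃ η : ℝ, 0 < η ∧ η ≤ 1 ∧ ∃ X0 : ℕ, ∀ X ≥ X0,
    (((Finset.Ioc X ⌊(1 + η) * X⌋₊).filter (fun D => IsFund D ∧ BX a X D)).card : ℝ) ≤
      ε * η * X := by
  obtain ⟨z0, hz0⟩ := h a ha 1 le_rfl ε hε
  obtain ⟨η1, hη1, H⟩ := hz0 z0 le_rfl
  have hηpos : 0 < min η1 1 := lt_min hη1 one_pos
  refine ⟨min η1 1, hηpos, min_le_right _ _, ?_⟩
  have H' : ∀ r : ℕ, ∃ X0 : ℕ, ∀ X ≥ X0, FundRes z0 r → ∀ ρ : ℕ → ℝ,
      SWt z0 X (PA a X) (cc a) 1 ρ →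
      ∑ D ∈ (FD z0 r X (min η1 1)).filter (fun D => BX a X D), wt ρ D ≤
        ε * WW z0 X (min η1 1) ρ := by
    intro r
    by_cases hr : FundRes z0 r
    · obtain ⟨X0, hX0⟩ := H (min η1 1) hηpos (min_le_left _ _) r hr
      exact ⟨X0, fun X hX _ => hX0 X hX⟩
    · exact ⟨0, fun X _ hr' => absurd hr' hr⟩
  choose X0 hX0 using H'
  refine ⟨max 3 ((Finset.range (Qz z0)).sup X0), ?_⟩
  intro X hX
  have hX3 : 3 ≤ X := le_trans (le_max_left _ _) hX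
  have hXs : (Finset.range (Qz z0)).sup X0 ≤ X := le_trans (le_max_right _ _) hX
  have hcc : 0 < cc a := by
    unfold cc
    apply div_pos <;> linarith
  obtain ⟨hSW, hGG, hwt⟩ := ht z0 X (PA a X) (cc a) 1 hX3 hcc le_rfl
    (fun p hp => (Finset.mem_filter.1 hp).2)
  set η := min η1 1 with hη
  set ρ : ℕ → ℝ := fun d => if d = 1 then 1 else 0 with hρ
  have hWW : WW z0 X η ρ = η * X / Qz z0 := by
    unfold WW
    rw [hGG, mul_one]
  set S := (Finset.Ioc X ⌊(1 + η) * X⌋₊).filter (fun D => IsFund D ∧ BX a X D) with hS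
  have hcard : S.card = ∑ r ∈ Finset.range (Qz z0), (S.filter (fun D => D % Qz z0 = r)).card := by
    apply Finset.card_eq_sum_card_fiberwise
    intro D _
    simp only [Finset.coe_range, Set.mem_Iio]
    exact Nat.mod_lt _ (Qz_pos z0)
  have hQ : (0 : ℝ) < Qz z0 := by exact_mod_cast Qz_pos z0
  have hnn : 0 ≤ ε * (η * X / Qz z0) := by positivity
  have hle : ∀ r ∈ Finset.range (Qz z0),
      ((S.filter (fun D => D % Qz z0 = r)).card : ℝ) ≤ ε * (η * X / Qz z0) := by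
    intro r hr
    by_cases hfr : FundRes z0 r
    · have h1 := hX0 r X (le_trans (Finset.le_sup hr) hXs) hfr ρ hSW
      rw [hWW] at h1
      refine le_trans ?_ h1
      have hcardsum : ∑ D ∈ (FD z0 r X η).filter (fun D => BX a X D), wt ρ D =
          (((FD z0 r X η).filter (fun D => BX a X D)).card : ℝ) := by
        rw [Finset.card_eq_sum_ones]
        push_cast
        apply Finset.sum_congr rfl
        intro D hD
        apply hwt
        have h2 := (Finset.mem_filter.1 (Finset.mem_filter.1 hD).1).2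
        exact h2.1.le
      rw [hcardsum]
      have : (S.filter (fun D => D % Qz z0 = r)) ⊆
          ((FD z0 r X η).filter (fun D => BX a X D)) := by
        intro D hD
        simp only [hS, FD, DD, Finset.mem_filter] at hD ⊢
        exact ⟨⟨⟨hD.1.1, hD.2⟩, hD.1.2.1⟩, hD.1.2.2⟩
      exact_mod_cast Finset.card_le_card this
    · have : (S.filter (fun D => D % Qz z0 = r)) = ∅ := by
        rw [Finset.filter_eq_empty_iff]
        intro D hD hDr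
        apply hfr
        rw [← hDr]
        exact fundRes z0 D (Finset.mem_filter.1 hD).2.1
      rw [this]
      simpa using hnn
  rw [hcard]
  push_cast
  refine le_trans (Finset.sum_le_sum hle) ?_
  rw [Finset.sum_const, Finset.card_range, nsmul_eq_mul]
  have : (Qz z0 : ℝ) * (ε * (η * X / Qz z0)) = ε * η * X := by
    field_simp
  rw [this]


open APh in
/-- few exceptional prime discriminants in a short interval -/
theorem short_primesX (hAS : PX_AS0) (hBH : P2_BH) (hRC : P2_RC) (a : ℝ) (ha : 2 < a) 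
    (ε : ℝ) (hε : 0 < ε) : ∃ η : ℝ, 0 < η ∧ η ≤ 1 ∧ ∃ X0 : ℕ, ∀ X ≥ X0,
    (((Finset.Ioc X ⌊(1 + η) * X⌋₊).filter (fun D => (∃ p : ℕ, p.Prime ∧ (D = p ∨ D = 4 * p)) ∧
      IsFund D ∧ BX a X D)).card : ℝ) ≤ ε * η * X / Real.log X := by
  have ha1 : 0 < a - 1 := by linarith
  have hcc0 : 0 < cc a := by
    unfold cc
    exact div_pos (by linarith) (by linarith)
  have hcc1 : cc a ≤ 1 / 2 := by
    unfold cc
    rw [div_le_iff₀ (by linarith)]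
    linarith
  obtain ⟨C0, hC0, hB⟩ := hBH (cc a) hcc0 (by linarith)
  have hC0' : (1 : ℝ) ≤ C0 := by exact_mod_cast hC0
  obtain ⟨z0, hz0⟩ := hAS a ha C0 hC0 (ε / C0) (by positivity)
  set z := max 2 z0 with hz
  have hz2 : 2 ≤ z := le_max_left _ _
  obtain ⟨η1, hη1, H⟩ := hz0 z (le_max_right _ _)
  obtain ⟨XB, hXB⟩ := hB z hz2 a ha
  have hηpos : 0 < min η1 1 := lt_min hη1 one_pos
  refine ⟨min η1 1, hηpos, min_le_right _ _, ?_⟩
  set η := min η1 1 with hη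
  have H' : ∀ r : ℕ, ∃ X0 : ℕ, ∀ X ≥ X0, ∀ ρ : ℕ → ℝ, SWt z X (PA a X) (cc a) C0 ρ →
      FundRes z r →
      ∑ D ∈ (FD z r X η).filter (fun D => BX a X D), wt ρ D ≤ ε / C0 * WW z X η ρ := by
    intro r
    by_cases hr : FundRes z r
    · obtain ⟨X0, hX0⟩ := H η hηpos (min_le_left _ _) r hr
      exact ⟨X0, fun X hX ρ hρ _ => hX0 X hX ρ hρ⟩
    · exact ⟨0, fun X _ ρ _ hr' => absurd hr' hr⟩
  choose X0 hX0 using H'
  refine ⟨max (max ((Finset.range (Qz z)).sup X0) XB) (max 17 (4 * z)), ?_⟩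
  intro X hX
  have hX1 : (Finset.range (Qz z)).sup X0 ≤ X :=
    (le_max_left _ _).trans ((le_max_left _ _).trans hX)
  have hX2 : XB ≤ X := (le_max_right _ _).trans ((le_max_left _ _).trans hX)
  have hX3 : 17 ≤ X := (le_max_left _ _).trans ((le_max_right _ _).trans hX)
  have hX4 : 4 * z ≤ X := (le_max_right _ _).trans ((le_max_right _ _).trans hX)
  obtain ⟨ρ, hρ, hρ1, hGG⟩ := hXB X hX2
  have hX17 : (17 : ℝ) ≤ X := by exact_mod_cast hX3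
  have hlog : 0 < Real.log X := Real.log_pos (by linarith)
  have hGpos : 0 ≤ GG X ρ := le_trans (by positivity) hρ.low
  set S := (Finset.Ioc X ⌊(1 + η) * X⌋₊).filter (fun D =>
    (∃ p : ℕ, p.Prime ∧ (D = p ∨ D = 4 * p)) ∧ IsFund D ∧ BX a X D) with hS
  have hcard : S.card = ∑ r ∈ Finset.range (Qz z), (S.filter (fun D => D % Qz z = r)).card := by
    apply Finset.card_eq_sum_card_fiberwise
    intro D _
    simp only [Finset.coe_range, Set.mem_Iio]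
    exact Nat.mod_lt _ (AS1h.Qz_pos z)
  have hQ : (0 : ℝ) < Qz z := by exact_mod_cast AS1h.Qz_pos z
  have hW : 0 ≤ ε / C0 * WW z X η ρ := by
    unfold WW
    positivity
  have hle : ∀ r ∈ Finset.range (Qz z),
      ((S.filter (fun D => D % Qz z = r)).card : ℝ) ≤
        if (∀ q ∈ (Finset.Icc 3 z).filter Nat.Prime, ¬ q ∣ r) then ε / C0 * WW z X η ρ else 0 := by
    intro r hr
    by_cases hfr : FundRes z r ∧ ∀ q ∈ (Finset.Icc 3 z).filter Nat.Prime, ¬ q ∣ r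
    · rw [if_pos hfr.2]
      refine le_trans ?_ (hX0 r X (le_trans (Finset.le_sup hr) hX1) ρ hρ hfr.1)
      have hsub : (S.filter (fun D => D % Qz z = r)) ⊆
          ((FD z r X η).filter (fun D => BX a X D)) := by
        intro D hD
        simp only [hS, FD, DD, Finset.mem_filter] at hD ⊢
        exact ⟨⟨⟨hD.1.1, hD.2⟩, hD.1.2.2.1⟩, hD.1.2.2.2⟩
      have e1 : ((S.filter (fun D => D % Qz z = r)).card : ℝ) =
          ∑ D ∈ S.filter (fun D => D % Qz z = r), wt ρ D := by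
        rw [Finset.sum_congr rfl (g := fun _ => (1 : ℝ)), Finset.sum_const, nsmul_eq_mul, mul_one]
        intro D hD
        simp only [hS, Finset.mem_filter, Finset.mem_Ioc] at hD
        obtain ⟨p, hp, hDp⟩ := hD.1.2.1
        exact wt_one hX3 hcc1 hρ hρ1 hD.1.1.1 hp hDp
      rw [e1]
      refine Finset.sum_le_sum_of_subset_of_nonneg hsub ?_
      intro D hD _
      simp only [FD, DD, Finset.mem_filter, Finset.mem_Ioc] at hD
      exact wt_nonneg (by omega) (by linarith) hρ D (by omega)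
    · have hemp : (S.filter (fun D => D % Qz z = r)) = ∅ := by
        rw [Finset.filter_eq_empty_iff]
        intro D hD hDr
        apply hfr
        simp only [hS, Finset.mem_filter, Finset.mem_Ioc] at hD
        obtain ⟨p, hp, hDp⟩ := hD.2.1
        rw [← hDr]
        exact ⟨AS1h.fundRes z D hD.2.2.1, res_cop hD.1.1 hp hDp hX4⟩
      rw [hemp, Finset.card_empty, Nat.cast_zero]
      split_ifs
      · exact hW
      · exact le_rfl
  rw [hcard]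
  push_cast
  refine le_trans (Finset.sum_le_sum hle) ?_
  rw [← Finset.sum_filter, Finset.sum_const, nsmul_eq_mul]
  have hRC' : ∀ inst : DecidablePred fun r : ℕ =>
      ∀ q ∈ (Finset.Icc 3 z).filter Nat.Prime, ¬ q ∣ r,
      (((@Finset.filter ℕ (fun r : ℕ => ∀ q ∈ (Finset.Icc 3 z).filter Nat.Prime, ¬ q ∣ r) inst
        (Finset.range (Qz z))).card : ℕ) : ℝ) =
      Qz z * ∏ q ∈ (Finset.Icc 3 z).filter Nat.Prime, (1 - (1 : ℝ) / q) := by
    intro inst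
    have h5 := hRC z
    convert h5
  refine (le_of_eq (congrArg (fun t : ℝ => t * (ε / C0 * WW z X η ρ)) (hRC' _))).trans ?_
  show (Qz z : ℝ) * (∏ q ∈ (Finset.Icc 3 z).filter Nat.Prime, (1 - (1 : ℝ) / q)) *
    (ε / C0 * WW z X η ρ) ≤ ε * η * X / Real.log X
  unfold WW
  have e2 : (Qz z : ℝ) * (∏ q ∈ (Finset.Icc 3 z).filter Nat.Prime, (1 - (1 : ℝ) / q)) *
      (ε / C0 * (η * X / Qz z * GG X ρ)) = ε / C0 * (η * X) *
        (GG X ρ * ∏ q ∈ (Finset.Icc 3 z).filter Nat.Prime, (1 - (1 : ℝ) / q)) := by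
    field_simp
  rw [e2]
  calc ε / C0 * (η * X) *
        (GG X ρ * ∏ q ∈ (Finset.Icc 3 z).filter Nat.Prime, (1 - (1 : ℝ) / q))
      ≤ ε / C0 * (η * X) * (C0 / Real.log X) :=
        mul_le_mul_of_nonneg_left hGG (by positivity)
    _ = ε * η * X / Real.log X := by
        field_simp




end Pool.Agent.H563.TW
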