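import Pool.Agent.H563.TW.Cls

/-!
# A model of the quadratic field of `d`, and the transfer between isomorphic fields
-/

set_option autoImplicit false

namespace Pool.Agent.H563.TW

open Finset Filter NumberField Polynomial Pool.Agent.H38R2.CG

/-- the transfer of the property that certain prime ideals generate the class group -/
theorem transfer (K L : Type) [Field K] [NumberField K] [Field L] [NumberField L] (e : K ≃+* L) (P : ℕ → Prop)
    (h : Subgroup.closure {c | ∃ u, P u ∧ c ∈ cls K u} = (⊤ : Subgroup (ClassGroup (𝓞 K)))) :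
    Subgroup.closure {c | ∃ u, P u ∧ c ∈ cls L u} = (⊤ : Subgroup (ClassGroup (𝓞 L))) := by
  obtain ⟨E, hE⟩ : ∃ E : 𝓞 K ≃+* 𝓞 L, E = NumberField.RingOfIntegers.mapRingEquiv e := ⟨_, rfl⟩
  let _ : Algebra (𝓞 K) (𝓞 L) := (E : 𝓞 K →+* 𝓞 L).toAlgebra
  have halg : algebraMap (𝓞 K) (𝓞 L) = (E : 𝓞 K →+* 𝓞 L) := rfl
  have hinj : Function.Injective (algebraMap (𝓞 K) (𝓞 L)) := by
    rw [halg]
    exact E.injective
  have : FaithfulSMul (𝓞 K) (𝓞 L) := (faithfulSMul_iff_algebraMap_injective (𝓞 K) (𝓞 L)).2 hinj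
  have : Module.IsTorsionFree (𝓞 K) (𝓞 L) := Module.IsTorsionFree.trans_faithfulSMul (𝓞 K) (𝓞 L) (𝓞 L)
  obtain ⟨f, hf⟩ : ∃ f : ClassGroup (𝓞 K) →* ClassGroup (𝓞 L), f = ClassGroup.extendedHom (𝓞 K) (𝓞 L) := ⟨_, rfl⟩
  have hsurj : Function.Surjective f := by
    intro c
    obtain ⟨J, rfl⟩ := ClassGroup.mk0_surjective c
    have hJ : (J : Ideal (𝓞 L)) ≠ ⊥ := mem_nonZeroDivisors_iff_ne_zero.1 J.2
    have hI : (J : Ideal (𝓞 L)).map (E.symm : 𝓞 L →+* 𝓞 K) ≠ ⊥ := by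
      intro h0
      apply hJ
      exact (Ideal.map_eq_bot_iff_of_injective (f := (E.symm : 𝓞 L →+* 𝓞 K)) E.symm.injective).1 h0
    refine ⟨ClassGroup.mk0 ⟨(J : Ideal (𝓞 L)).map (E.symm : 𝓞 L →+* 𝓞 K), mem_nonZeroDivisors_iff_ne_zero.2 hI⟩, ?_⟩
    rw [hf, ClassGroup.extendedHom_mk0]
    congr 1
    apply Subtype.ext
    show Ideal.map (algebraMap (𝓞 K) (𝓞 L)) (Ideal.map (E.symm : 𝓞 L →+* 𝓞 K) (J : Ideal (𝓞 L))) = J
    rw [halg, Ideal.map_map]
    have : (E : 𝓞 K →+* 𝓞 L).comp (E.symm : 𝓞 L →+* 𝓞 K) = RingHom.id _ := by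
      ext x
      simp
    rw [this, Ideal.map_id]
  have himg : ∀ u, ∀ c ∈ cls K u, f c ∈ cls L u := by
    rintro u c ⟨P, hP, hPu, rfl⟩
    refine ⟨ClassGroup.extendedIdeal (𝓞 K) (𝓞 L) P, ?_, ?_, ?_⟩
    · show (Ideal.map (algebraMap (𝓞 K) (𝓞 L)) (P : Ideal (𝓞 K))).IsPrime
      rw [halg]
      have := hP
      exact Ideal.map_isPrime_of_equiv E
    · show Ideal.absNorm (Ideal.map (algebraMap (𝓞 K) (𝓞 L)) (P : Ideal (𝓞 K))) = u
      rw [← hPu, Ideal.absNorm_apply, Ideal.absNorm_apply, Submodule.cardQuot_apply, Submodule.cardQuot_apply]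
      exact (Nat.card_congr (Ideal.quotientEquiv (P : Ideal (𝓞 K)) _ E rfl).toEquiv).symm
    · rw [hf, ClassGroup.extendedHom_mk0]
  rw [eq_top_iff]
  intro c _
  obtain ⟨b, rfl⟩ := hsurj c
  have hb : b ∈ Subgroup.closure {c | ∃ u, P u ∧ c ∈ cls K u} := by
    rw [h]
    trivial
  have h1 : f b ∈ (Subgroup.closure {c | ∃ u, P u ∧ c ∈ cls K u}).map f := ⟨b, hb, rfl⟩
  rw [MonoidHom.map_closure] at h1
  refine Subgroup.closure_mono ?_ h1
  rintro _ ⟨c, ⟨u, hu, hc⟩, rfl⟩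
  exact ⟨u, hu, himg u c hc⟩

/-- squarefree integers -/
abbrev SqF : Type := {d : ℕ // 1 < d ∧ Squarefree d}

theorem irr (d : SqF) : Irreducible (X ^ 2 - C ((d : ℕ) : ℚ) : ℚ[X]) := by
  apply X_pow_sub_C_irreducible_of_prime Nat.prime_two
  intro b hb
  have h1 : IsSquare (((d : ℕ) : ℚ)) := ⟨b, by rw [← hb, sq]⟩
  rw [Rat.isSquare_natCast_iff] at h1
  obtain ⟨m, hm⟩ := h1
  have h2 := d.2.2 m ⟨1, by rw [hm, mul_one]⟩
  rw [Nat.isUnit_iff] at h2
  have h3 := d.2.1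
  rw [h2] at hm
  omega

instance (d : SqF) : Fact (Irreducible (X ^ 2 - C ((d : ℕ) : ℚ) : ℚ[X])) := ⟨irr d⟩

/-- a model of the quadratic field -/
abbrev QF (d : SqF) : Type := AdjoinRoot (X ^ 2 - C ((d : ℕ) : ℚ) : ℚ[X])

theorem ndeg (d : SqF) : (X ^ 2 - C ((d : ℕ) : ℚ) : ℚ[X]).natDegree = 2 := natDegree_X_pow_sub_C

theorem QF_finrank (d : SqF) : Module.finrank ℚ (QF d) = 2 := by
  have h := (AdjoinRoot.powerBasis (irr d).ne_zero).finrank
  rw [h, AdjoinRoot.powerBasis_dim, ndeg]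

instance (d : SqF) : FiniteDimensional ℚ (QF d) := by
  apply Module.finite_of_finrank_pos
  rw [QF_finrank]
  norm_num

instance (d : SqF) : NumberField (QF d) where
  to_charZero := charZero_of_injective_algebraMap (algebraMap ℚ (QF d)).injective
  to_finiteDimensional := inferInstance

theorem QF_root (d : SqF) : ∃ x : QF d, x ^ 2 = ((d : ℕ) : QF d) := by
  refine ⟨AdjoinRoot.root _, ?_⟩
  have h := AdjoinRoot.eval₂_root (X ^ 2 - C ((d : ℕ) : ℚ) : ℚ[X])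
  rw [eval₂_sub, eval₂_X_pow, eval₂_C, sub_eq_zero] at h
  rw [h]
  simp

/-- every quadratic field containing the square root of `d` is isomorphic to the model -/
theorem QF_iso (d : SqF) (K : Type) [Field K] [NumberField K] (h2 : Module.finrank ℚ K = 2)
    (hx : ∃ x : K, x ^ 2 = ((d : ℕ) : K)) : Nonempty (QF d ≃+* K) := by
  obtain ⟨x, hx⟩ := hx
  have h0 : (X ^ 2 - C ((d : ℕ) : ℚ) : ℚ[X]).eval₂ (algebraMap ℚ K) x = 0 := by
    rw [eval₂_sub, eval₂_X_pow, eval₂_C, hx]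
    simp
  obtain ⟨f, hf⟩ : ∃ f : QF d →ₐ[ℚ] K, True :=
    ⟨{ AdjoinRoot.lift (algebraMap ℚ K) x h0 with
        commutes' := fun r => AdjoinRoot.lift_of h0 }, trivial⟩
  have hinj : Function.Injective f := f.toRingHom.injective
  have hsurj : Function.Surjective f := by
    have h3 : Function.Injective f.toLinearMap := hinj
    exact (LinearMap.injective_iff_surjective_of_finrank_eq_finrank (f := f.toLinearMap)
      (by rw [QF_finrank, h2])).1 h3
  exact ⟨(AlgEquiv.ofBijective f ⟨hinj, hsurj⟩).toRingEquiv⟩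

end Pool.Agent.H563.TW
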