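import Pool.Agent.H563.TW.ThinGen
import Pool.Agent.H563.TW.Model
import Pool.Agent.H563.TW.Cnt

/-!
# A thin set of primes which generates almost all class groups
-/

set_option autoImplicit false

namespace Pool.Agent.H563.TW

open Finset Filter NumberField Pool.Agent.H38R2.CG Pool.Agent.H38R2.CG2 Pool.Agent.H38R2.CG.AS1h
open Pool.Agent.H38R2.CG.FINh Pool.Agent.H38R2.CG3
open scoped Classical

/-- the prime ideals of norm in `B`, at most `(log d) ^ a`, generate the class group -/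
def GenB (a : ℝ) (B : Set ℕ) (d : ℕ) : Prop :=
  ∀ (K : Type) [Field K] [NumberField K], Module.finrank ℚ K = 2 → (∃ x : K, x ^ 2 = (d : K)) →
    Subgroup.closure {c | ∃ u, (u ∈ B ∧ (u : ℝ) ≤ (Real.log d) ^ a) ∧ c ∈ cls K u} =
      (⊤ : Subgroup (ClassGroup (𝓞 K)))

theorem disc (hN0d : P_N0d) (d : SqF) : NumberField.discr (QF d) = ((Dof d : ℕ) : ℤ) := by
  rw [hN0d (QF d) d d.2.1 d.2.2 (QF_finrank d) (QF_root d)]
  unfold Dof
  split_ifs <;> simp

theorem thinCls (a : ℝ) (ha : 2 < a) : ∃ C : ℝ, 0 < C ∧ ∃ B : Set ℕ, (∀ b ∈ B, b.Prime) ∧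
    (∀ y : ℕ, 1 ≤ y → ({b | b ∈ B ∧ b ≤ y}.ncard : ℝ) ≤ C * (y : ℝ) ^ (2 / a)) ∧
    ∃ X₀ : ℕ, ∀ X : ℕ, X₀ ≤ X → ∀ d : ℕ, 1 < d → Squarefree d → X < Dof d → Dof d ≤ 2 * X →
      ¬ BX a X (Dof d) → GenB a B d := by
  have ha0 : 0 < a := by linarith
  obtain ⟨⟨hN0, hN0d, hN1, hN3, h4, hKF, h5b, hN6⟩, -, hNB, -, -, -, -⟩ := inputs
  obtain ⟨X1, hX1⟩ := outside hN0 hN1 hN3 h4 hKF h5b hN6 a ha
  obtain ⟨X2, hX2⟩ := params a ha
  obtain ⟨X3, hX3⟩ := NB2 a ha (1 / 4) (by norm_num)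
  obtain ⟨-, y0, hy0⟩ := hNB
  obtain ⟨s₁, hs₁1, hcheb⟩ := cheb
  obtain ⟨C, hC, hthin⟩ := thinGen a (by linarith) 2000 (by norm_num)
  refine ⟨C, hC, ?_⟩
  obtain ⟨X4, hX4⟩ : ∃ X4 : ℕ, X4 = max (max X1 X2) (max X3 2) := ⟨_, rfl⟩
  obtain ⟨N, hN⟩ : ∃ N : ℕ → ℕ, ∀ s, N s = ⌊2 * Real.exp (8 * ((2 : ℝ) ^ s) ^ (1 / a))⌋₊ + 1 := ⟨_, fun _ => rfl⟩
  obtain ⟨M, hM⟩ : ∃ M : ℕ → Finset (SqF × ℕ), ∀ s, M s =
      (((range (N s)).subtype (fun d => 1 < d ∧ Squarefree d)) ×ˢ (range (N s))).filter (fun z =>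
        X4 ≤ z.2 ∧ 2 ^ s ≤ yA a z.2 ∧ yA a z.2 < 2 ^ (s + 1) ∧ z.2 < Dof z.1 ∧ Dof z.1 ≤ 2 * z.2 ∧
          ¬ BX a z.2 (Dof z.1)) := ⟨_, fun _ => rfl⟩
  obtain ⟨s₀, hs₀⟩ : ∃ s₀ : ℕ, s₀ = s₁ + y0 := ⟨_, rfl⟩
  have hL1 : ∀ s : ℕ, (1 : ℝ) ≤ ((2 : ℝ) ^ s) ^ (1 / a) := fun s =>
    Real.one_le_rpow (one_le_pow₀ (by norm_num)) (by positivity)
  have hlogX : ∀ s X : ℕ, 2 ≤ X → yA a X < 2 ^ (s + 1) → Real.log X ≤ 8 * ((2 : ℝ) ^ s) ^ (1 / a) := by
    intro s X hX hy
    unfold yA at hy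
    have h1 := (Nat.floor_lt' (by positivity)).1 hy
    push_cast at h1
    have hl0 : 0 ≤ Real.log X := Real.log_nonneg (by
      have : 1 ≤ X := by omega
      exact_mod_cast this)
    have h2 : (Real.log X) ^ a ≤ 8 ^ a * 2 ^ s := by
      have h3 : (8 : ℝ) ≤ 8 ^ a := by
        calc (8 : ℝ) = 8 ^ (1 : ℝ) := (Real.rpow_one 8).symm
          _ ≤ 8 ^ a := Real.rpow_le_rpow_of_exponent_le (by norm_num) (by linarith)
      have h4 : (0 : ℝ) < 2 ^ s := by positivity
      rw [pow_succ] at h1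
      nlinarith
    have h3 : (8 * ((2 : ℝ) ^ s) ^ (1 / a)) ^ a = 8 ^ a * 2 ^ s := by
      rw [Real.mul_rpow (by norm_num) (by positivity), ← Real.rpow_mul (by positivity), one_div,
        inv_mul_cancel₀ ha0.ne', Real.rpow_one]
    rw [← h3] at h2
    exact (Real.rpow_le_rpow_iff hl0 (by positivity) ha0).1 h2
  have hXexp : ∀ s X : ℕ, 2 ≤ X → yA a X < 2 ^ (s + 1) → (X : ℝ) ≤ Real.exp (8 * ((2 : ℝ) ^ s) ^ (1 / a)) := by
    intro s X hX hy
    rw [← Real.log_le_iff_le_exp (by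
      have : 0 < X := by omega
      exact_mod_cast this)]
    exact hlogX s X hX hy
  obtain ⟨B, hB1, hB2, hB3⟩ := hthin (ι := SqF × ℕ) (fun i => ClassGroup (𝓞 (QF i.1)))
    (fun i u => {c | c ∈ cls (QF i.1) u ∧ u ∈ PA a i.2}) s₀ M (by
      intro s _
      have e1 : (M s).card ≤ N s * N s := by
        rw [hM]
        refine (card_filter_le _ _).trans ?_
        rw [card_product]
        apply Nat.mul_le_mul
        · rw [Finset.card_subtype]
          refine (card_filter_le _ _).trans ?_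
          rw [card_range]
        · rw [card_range]
      have e2 : (N s : ℝ) ≤ Real.exp (1000 * ((2 : ℝ) ^ s) ^ (1 / a)) := by
        rw [hN]
        push_cast
        have f1 := Nat.floor_le (show (0 : ℝ) ≤ 2 * Real.exp (8 * ((2 : ℝ) ^ s) ^ (1 / a)) by positivity)
        have f2 : (1 : ℝ) ≤ Real.exp (8 * ((2 : ℝ) ^ s) ^ (1 / a)) := Real.one_le_exp (by positivity)
        have f3 : (3 : ℝ) ≤ Real.exp (2 * ((2 : ℝ) ^ s) ^ (1 / a)) := by
          have := Real.add_one_le_exp (2 * ((2 : ℝ) ^ s) ^ (1 / a))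
          have := hL1 s
          linarith
        calc ((⌊2 * Real.exp (8 * ((2 : ℝ) ^ s) ^ (1 / a))⌋₊ : ℕ) : ℝ) + 1 ≤
              3 * Real.exp (8 * ((2 : ℝ) ^ s) ^ (1 / a)) := by linarith
          _ ≤ Real.exp (2 * ((2 : ℝ) ^ s) ^ (1 / a)) * Real.exp (8 * ((2 : ℝ) ^ s) ^ (1 / a)) := by
              apply mul_le_mul_of_nonneg_right f3 (by positivity)
          _ = Real.exp (10 * ((2 : ℝ) ^ s) ^ (1 / a)) := by
              rw [← Real.exp_add]
              congr 1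
              ring
          _ ≤ _ := by
              rw [Real.exp_le_exp]
              have := hL1 s
              linarith
      calc ((M s).card : ℝ) ≤ (N s : ℝ) * N s := by exact_mod_cast e1
        _ ≤ Real.exp (1000 * ((2 : ℝ) ^ s) ^ (1 / a)) * Real.exp (1000 * ((2 : ℝ) ^ s) ^ (1 / a)) := by
            apply mul_le_mul e2 e2 (by positivity) (by positivity)
        _ = _ := by
            rw [← Real.exp_add]
            congr 1
            ring) (by
      intro s _ i hi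
      rw [hM, mem_filter] at hi
      obtain ⟨-, h1, h2, h3, h5, h6, h7⟩ := hi
      have hi2 : 2 ≤ i.2 := by omega
      rw [BX, not_or, not_lt] at h7
      have g1 := (hX1 i.2 (by omega) (Dof i.1) (isFund_Dof i.1.2.1 i.1.2.2) (QF i.1) (QF_finrank i.1)
        (disc hN0d i.1) h7.1 h7.2).2
      refine g1.trans ?_
      have g2 := hXexp s i.2 hi2 h3
      calc (i.2 : ℝ) ^ 3 ≤ (Real.exp (8 * ((2 : ℝ) ^ s) ^ (1 / a))) ^ 3 := pow_le_pow_left₀ (by positivity) g2 3
        _ = Real.exp (24 * ((2 : ℝ) ^ s) ^ (1 / a)) := by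
            rw [← Real.exp_nat_mul]
            congr 1
            push_cast
            ring
        _ ≤ _ := by
            rw [Real.exp_le_exp]
            have := hL1 s
            linarith) (by
      intro s hs i hi H hH
      rw [hM, mem_filter] at hi
      obtain ⟨-, h1, h2, h3, h5, h6, h7⟩ := hi
      have hi2 : 2 ≤ i.2 := by omega
      rw [BX, not_or, not_lt] at h7
      have g1 := (hX1 i.2 (by omega) (Dof i.1) (isFund_Dof i.1.2.1 i.1.2.2) (QF i.1) (QF_finrank i.1)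
        (disc hN0d i.1) h7.1 h7.2).1 H hH
      obtain ⟨-, -, -, hk, -, -, -, -⟩ := hX3 i.2 (by omega)
      have g2 := hlogX s i.2 hi2 h3
      obtain ⟨L, hL⟩ : ∃ L : ℝ, L = ((2 : ℝ) ^ s) ^ (1 / a) := ⟨_, rfl⟩
      rw [← hL] at g2 ⊢
      have hL0 : 0 < L := by
        rw [hL]
        positivity
      -- the number of the elements outside
      have g3 : ((PA a i.2).filter (fun u => ∃ c ∈ cls (QF i.1) u, c ∉ H)).card ≤
          ({u | u ∈ PB (2 ^ s) (2 ^ (s + 2)) ∧
            ∃ c ∈ ({c | c ∈ cls (QF i.1) u ∧ u ∈ PA a i.2} : Set (ClassGroup (𝓞 (QF i.1)))), c ∉ H} : Set ℕ).ncard := by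
        rw [← Set.ncard_coe_finset]
        apply Set.ncard_le_ncard
        · intro u hu
          rw [mem_coe, mem_filter] at hu
          obtain ⟨hu1, c, hc1, hc2⟩ := hu
          refine ⟨?_, c, ⟨hc1, hu1⟩, hc2⟩
          rw [mem_PB]
          unfold PA PP at hu1
          rw [mem_filter, mem_Ioc] at hu1
          refine ⟨⟨by omega, ?_⟩, hu1.2⟩
          rw [pow_succ] at h3 ⊢
          rw [pow_succ]
          omega
        · apply Set.Finite.subset (PB (2 ^ s) (2 ^ (s + 2))).finite_toSet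
          rintro u ⟨hu, -⟩
          exact hu
      -- the size of the window
      have hs1 : (1 : ℝ) ≤ s := by
        have : 1 ≤ s := by omega
        exact_mod_cast this
      have g4 : ((PB (2 ^ s) (2 ^ (s + 2))).card : ℝ) ≤ 14 * (PA a i.2).card := by
        have f1 : ((PB (2 ^ s) (2 ^ (s + 2))).card : ℝ) ≤ 3 * 2 ^ (s + 2) / ((s + 2 : ℕ) : ℝ) := by
          refine le_trans ?_ (hcheb (s + 2) (by omega)).2
          have : (PB (2 ^ s) (2 ^ (s + 2))).card ≤ (PB 0 (2 ^ (s + 2))).card := by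
            apply card_le_card
            intro p hp
            rw [mem_PB] at hp ⊢
            exact ⟨⟨hp.2.pos, hp.1.2⟩, hp.2⟩
          exact_mod_cast this
        have hys : y0 ≤ yA a i.2 := by
          have : s < 2 ^ s := Nat.lt_two_pow_self
          omega
        have f2 := (hy0 (yA a i.2) hys).1
        have hl2 : 0 < Real.log 2 := Real.log_pos (by norm_num)
        have hl3 : Real.log 2 ≤ 1 := by
          have := Real.log_two_lt_d9
          linarith
        have hyr : (2 : ℝ) ^ s ≤ yA a i.2 := by exact_mod_cast h2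
        have hyr2 : (yA a i.2 : ℝ) ≤ 2 ^ (s + 1) := by exact_mod_cast h3.le
        have hy1 : (1 : ℝ) < yA a i.2 := by
          have : (2 : ℝ) ^ 1 ≤ 2 ^ s := pow_le_pow_right₀ (by norm_num) (by exact_mod_cast hs1)
          linarith
        have hlogy : Real.log (yA a i.2) ≤ s + 1 := by
          have e1 := Real.log_le_log (by linarith) hyr2
          rw [Real.log_pow] at e1
          push_cast at e1
          nlinarith
        have hlogy0 : 0 < Real.log (yA a i.2) := Real.log_pos hy1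
        have f3 : 9 / 10 * (2 : ℝ) ^ s / (s + 1) ≤ ((PA a i.2).card : ℝ) := by
          refine le_trans ?_ f2
          apply div_le_div₀ (by positivity) _ hlogy0 hlogy
          linarith
        calc ((PB (2 ^ s) (2 ^ (s + 2))).card : ℝ) ≤ 3 * 2 ^ (s + 2) / ((s + 2 : ℕ) : ℝ) := f1
          _ ≤ 3 * 2 ^ (s + 2) / ((s : ℝ) + 1) := by
              apply div_le_div_of_nonneg_left (by positivity) (by positivity)
              push_cast
              linarith
          _ = 40 / 3 * (9 / 10 * (2 : ℝ) ^ s / (s + 1)) := by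
              rw [pow_add]
              ring
          _ ≤ 14 * (PA a i.2).card := by
              have : (0 : ℝ) ≤ (PA a i.2).card := by positivity
              linarith
      have g5 : (16 : ℝ) * kA a i.2 ≤ 128 * L := by linarith
      calc ((PB (2 ^ s) (2 ^ (s + 2))).card : ℝ) ≤ 14 * (PA a i.2).card := g4
        _ ≤ 14 * (16 * kA a i.2 * ((PA a i.2).filter (fun u => ∃ c ∈ cls (QF i.1) u, c ∉ H)).card) := by
            apply mul_le_mul_of_nonneg_left g1 (by norm_num)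
        _ ≤ 14 * (128 * L * ((PA a i.2).filter (fun u => ∃ c ∈ cls (QF i.1) u, c ∉ H)).card) := by
            apply mul_le_mul_of_nonneg_left _ (by norm_num)
            apply mul_le_mul_of_nonneg_right g5 (by positivity)
        _ = 1792 * L * ((PA a i.2).filter (fun u => ∃ c ∈ cls (QF i.1) u, c ∉ H)).card := by ring
        _ ≤ 2000 * L * ((PA a i.2).filter (fun u => ∃ c ∈ cls (QF i.1) u, c ∉ H)).card := by
            apply mul_le_mul_of_nonneg_right _ (by positivity)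
            linarith
        _ ≤ _ := by
            apply mul_le_mul_of_nonneg_left _ (by positivity)
            exact_mod_cast g3)
  refine ⟨B, hB1, hB2, ?_⟩
  -- large `X` have large level
  have ev : ∀ᶠ X : ℕ in atTop, ((2 : ℝ) ^ (s₀ + 1)) ≤ (Real.log X) ^ a / 4 := by
    have h1 : Tendsto (fun X : ℕ => (Real.log (X : ℝ)) ^ a / 4) atTop atTop := by
      apply Tendsto.atTop_div_const (by norm_num)
      exact (tendsto_rpow_atTop ha0).comp (Real.tendsto_log_atTop.comp tendsto_natCast_atTop_atTop)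
    exact h1.eventually_ge_atTop _
  obtain ⟨X5, hX5⟩ := eventually_atTop.1 ev
  refine ⟨max X4 X5, ?_⟩
  intro X hX d hd1 hd2 hXd hdX hBX
  obtain ⟨D, rfl⟩ : ∃ D : SqF, (D : ℕ) = d := ⟨⟨d, hd1, hd2⟩, rfl⟩
  have hX4' : X4 ≤ X := (le_max_left _ _).trans hX
  have hX2' : 2 ≤ X := by omega
  have hy := hX5 X ((le_max_right _ _).trans hX)
  have hyN : 2 ^ (s₀ + 1) ≤ yA a X := by
    unfold yA
    apply Nat.le_floor
    push_cast
    exact hy
  obtain ⟨s, hs⟩ : ∃ s, s = Nat.log 2 (yA a X) := ⟨_, rfl⟩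
  have hy0' : yA a X ≠ 0 := by
    have : 0 < 2 ^ (s₀ + 1) := by positivity
    omega
  have e1 : 2 ^ s ≤ yA a X := by
    rw [hs]
    exact Nat.pow_log_le_self 2 hy0'
  have e2 : yA a X < 2 ^ (s + 1) := by
    rw [hs]
    exact Nat.lt_pow_succ_log_self (by norm_num) _
  have hss : s₀ ≤ s := by
    have := Nat.le_log_of_pow_le (by norm_num) hyN
    omega
  have hexp := hXexp s X hX2' e2
  have hXN : X < N s := by
    rw [hN, Nat.lt_succ_iff]
    apply Nat.le_floor
    have := Real.exp_pos (8 * ((2 : ℝ) ^ s) ^ (1 / a))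
    linarith
  have hdN : (D : ℕ) < N s := by
    rw [hN, Nat.lt_succ_iff]
    apply Nat.le_floor
    have h1 : (D : ℕ) ≤ 2 * X := (le_Dof D).trans hdX
    have h2 : (D : ℝ) ≤ 2 * X := by exact_mod_cast h1
    linarith
  have hmem : ((D, X) : SqF × ℕ) ∈ M s := by
    rw [hM, mem_filter, mem_product]
    refine ⟨⟨?_, mem_range.2 hXN⟩, hX4', e1, e2, hXd, hdX, hBX⟩
    rw [Finset.mem_subtype]
    exact mem_range.2 hdN
  have h1 := hB3 s hss _ hmem
  intro K _ _ h2 hx
  obtain ⟨e⟩ := QF_iso D K h2 hx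
  have hd4 : (X : ℝ) / 4 ≤ D := by
    have h1 : X < 4 * (D : ℕ) := lt_of_lt_of_le hXd (by
      unfold Dof
      split_ifs <;> omega)
    have h2 : (X : ℝ) < 4 * D := by exact_mod_cast h1
    linarith
  have hd2' : (D : ℝ) ≤ 2 * X := by
    have h1 : (D : ℕ) ≤ 2 * X := (le_Dof D).trans hdX
    exact_mod_cast h1
  have hyd := (hX2 X (by omega) D hd4 hd2').1
  apply transfer (QF D) K e (fun u => u ∈ B ∧ (u : ℝ) ≤ (Real.log D) ^ a)
  rw [eq_top_iff, ← h1]
  apply Subgroup.closure_mono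
  rintro c ⟨u, hu, -, -, hc1, hc2⟩
  refine ⟨u, ⟨hu, ?_⟩, hc1⟩
  unfold PA PP at hc2
  rw [mem_filter, mem_Ioc] at hc2
  refine le_trans ?_ hyd
  exact_mod_cast hc2.1.2

end Pool.Agent.H563.TW
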