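import Mathlib

/-!
# Elementary symmetric functions of numbers in `[0, 2]`
-/

set_option autoImplicit false

namespace Pool.Agent.H563.TW

open Finset

/-- elementary symmetric function -/
noncomputable def es (x : ℕ → ℝ) (j : ℕ) (P : Finset ℕ) : ℝ := ∑ s ∈ P.powersetCard j, ∏ p ∈ s, x p

theorem es_zero (x : ℕ → ℝ) (P : Finset ℕ) : es x 0 P = 1 := by
  unfold es
  rw [powersetCard_zero, sum_singleton, prod_empty]

theorem es_succ_empty (x : ℕ → ℝ) (j : ℕ) : es x (j + 1) ∅ = 0 := by
  unfold es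
  rw [powersetCard_eq_empty.2 (by simp), sum_empty]

theorem es_insert (x : ℕ → ℝ) (j : ℕ) (P : Finset ℕ) (p : ℕ) (hp : p ∉ P) :
    es x (j + 1) (insert p P) = es x (j + 1) P + x p * es x j P := by
  unfold es
  rw [powersetCard_succ_insert hp, sum_union, sum_image, mul_sum]
  · congr 1
    apply sum_congr rfl
    intro s hs
    rw [prod_insert]
    intro h
    exact hp ((mem_powersetCard.1 hs).1 h)
  · intro s hs t ht hst
    have hs' : p ∉ s := fun h => hp ((mem_powersetCard.1 hs).1 h)
    have ht' : p ∉ t := fun h => hp ((mem_powersetCard.1 ht).1 h)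
    rw [← erase_insert hs', ← erase_insert ht']
    rw [hst]
  · rw [disjoint_left]
    intro s hs hs'
    obtain ⟨t, ht, rfl⟩ := mem_image.1 hs'
    exact hp ((mem_powersetCard.1 hs).1 (mem_insert_self p t))

theorem es_nonneg (x : ℕ → ℝ) (hx : ∀ p, 0 ≤ x p) (j : ℕ) (P : Finset ℕ) : 0 ≤ es x j P :=
  sum_nonneg fun s _ => prod_nonneg fun p _ => hx p

theorem es_mono (x : ℕ → ℝ) (hx : ∀ p, 0 ≤ x p) (j : ℕ) {P Q : Finset ℕ} (h : P ⊆ Q) :
    es x j P ≤ es x j Q := by
  unfold es
  apply sum_le_sum_of_subset_of_nonneg (powersetCard_mono h)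
  intro s _ _
  exact prod_nonneg fun p _ => hx p

/-- `(k + 1) e_{k+1} ≤ A e_k` -/
theorem es_le (x : ℕ → ℝ) (hx : ∀ p, 0 ≤ x p) (P : Finset ℕ) :
    ∀ k : ℕ, ((k : ℝ) + 1) * es x (k + 1) P ≤ (∑ p ∈ P, x p) * es x k P := by
  induction P using Finset.induction_on with
  | empty =>
    intro k
    rw [es_succ_empty, sum_empty]
    simp
  | insert p P hp ih =>
    intro k
    rw [sum_insert hp]
    rcases Nat.eq_zero_or_pos k with rfl | hk
    · rw [es_insert x 0 P p hp, es_zero, es_zero]
      have := ih 0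
      rw [es_zero] at this
      push_cast at this ⊢
      linarith
    obtain ⟨j, rfl⟩ : ∃ j, k = j + 1 := ⟨k - 1, by omega⟩
    rw [es_insert x (j + 1) P p hp, es_insert x j P p hp]
    have h1 := ih (j + 1)
    have h2 := ih j
    have h3 := es_nonneg x hx j P
    have h4 := hx p
    push_cast at h1 h2 ⊢
    have h5 := mul_le_mul_of_nonneg_left h2 h4
    have h6 : 0 ≤ x p * (x p * es x j P) := mul_nonneg h4 (mul_nonneg h4 h3)
    nlinarith

/-- `(A - 2 k) e_k ≤ (k + 1) e_{k+1}` -/
theorem es_ge (x : ℕ → ℝ) (hx : ∀ p, 0 ≤ x p) (hx2 : ∀ p, x p ≤ 2) (P : Finset ℕ) :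
    ∀ k : ℕ, ((∑ p ∈ P, x p) - 2 * k) * es x k P ≤ ((k : ℝ) + 1) * es x (k + 1) P := by
  induction P using Finset.induction_on with
  | empty =>
    intro k
    rw [es_succ_empty, sum_empty, mul_zero]
    have := es_nonneg x hx k ∅
    have h0 : (0 : ℝ) ≤ k := by positivity
    nlinarith
  | insert p P hp ih =>
    intro k
    rw [sum_insert hp]
    rcases Nat.eq_zero_or_pos k with rfl | hk
    · rw [es_insert x 0 P p hp, es_zero, es_zero]
      have := ih 0
      rw [es_zero] at this
      push_cast at this ⊢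
      linarith
    obtain ⟨j, rfl⟩ : ∃ j, k = j + 1 := ⟨k - 1, by omega⟩
    rw [es_insert x (j + 1) P p hp, es_insert x j P p hp]
    have h1 := ih (j + 1)
    have h2 := ih j
    have h3 := es_nonneg x hx j P
    have h4 := hx p
    have h4' := hx2 p
    push_cast at h1 h2 ⊢
    have h5 := mul_le_mul_of_nonneg_left h2 h4
    have h6 : 0 ≤ x p * ((2 - x p) * es x j P) := mul_nonneg h4 (mul_nonneg (by linarith) h3)
    nlinarith

/-- `e_k ≤ A ^ k / k!` -/
theorem es_le_pow (x : ℕ → ℝ) (hx : ∀ p, 0 ≤ x p) (P : Finset ℕ) (k : ℕ) :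
    (k.factorial : ℝ) * es x k P ≤ (∑ p ∈ P, x p) ^ k := by
  induction k with
  | zero => rw [es_zero]; simp
  | succ k ih =>
    have h1 := es_le x hx P k
    have hA : 0 ≤ ∑ p ∈ P, x p := sum_nonneg fun p _ => hx p
    rw [Nat.factorial_succ, pow_succ]
    push_cast
    calc ((k : ℝ) + 1) * (k.factorial : ℝ) * es x (k + 1) P =
          (k.factorial : ℝ) * (((k : ℝ) + 1) * es x (k + 1) P) := by ring
      _ ≤ (k.factorial : ℝ) * ((∑ p ∈ P, x p) * es x k P) := mul_le_mul_of_nonneg_left h1 (by positivity)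
      _ = ((k.factorial : ℝ) * es x k P) * (∑ p ∈ P, x p) := by ring
      _ ≤ _ := mul_le_mul_of_nonneg_right ih hA

/-- removing the elements of `W` -/
theorem es_sdiff (x : ℕ → ℝ) (hx : ∀ p, 0 ≤ x p) (hx2 : ∀ p, x p ≤ 2) (P : Finset ℕ) (k : ℕ) (W : Finset ℕ) :
    es x (k + 1) P ≤ es x (k + 1) (P \ W) + 2 * W.card * es x k P := by
  induction W using Finset.induction_on with
  | empty => simp
  | insert w W hw ih =>
    have h0 := es_nonneg x hx k P
    have h1 : es x (k + 1) (P \ W) ≤ es x (k + 1) (P \ insert w W) + 2 * es x k P := by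
      have e : P \ insert w W = (P \ W).erase w := by
        ext z
        simp only [mem_sdiff, mem_insert, mem_erase, not_or]
        tauto
      rw [e]
      by_cases hwP : w ∈ P \ W
      · have h2 := es_insert x k ((P \ W).erase w) w (notMem_erase w _)
        rw [insert_erase hwP] at h2
        rw [h2]
        have h3 : es x k ((P \ W).erase w) ≤ es x k P :=
          es_mono x hx k ((erase_subset _ _).trans sdiff_subset)
        have h4 := es_nonneg x hx k ((P \ W).erase w)
        have h5 := hx w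
        have h6 := hx2 w
        nlinarith
      · rw [erase_eq_of_notMem hwP]
        linarith
    rw [card_insert_of_notMem hw]
    push_cast
    linarith

end Pool.Agent.H563.TW
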