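import Mathlib

/-!
# Choosing few elements which generate many finite groups at once
-/

set_option autoImplicit false

namespace Pool.Agent.H563.TW

open Finset

/-- the subgroup generated by the sets attached to the elements of `S` -/
def gen {U : Type*} {G : Type*} [Group G] (g : U → Set G) (S : Finset U) : Subgroup G :=
  Subgroup.closure (⋃ u ∈ S, g u)

theorem gen_mono {U : Type*} {G : Type*} [Group G] (g : U → Set G) {S S' : Finset U} (h : S ⊆ S') :
    gen g S ≤ gen g S' := by
  unfold gen
  apply Subgroup.closure_mono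
  intro c hc
  simp only [Set.mem_iUnion] at hc ⊢
  obtain ⟨u, hu, hc⟩ := hc
  exact ⟨u, h hu, hc⟩

theorem mem_gen {U : Type*} {G : Type*} [Group G] (g : U → Set G) {S : Finset U} {u : U} (hu : u ∈ S) {c : G}
    (hc : c ∈ g u) : c ∈ gen g S := by
  apply Subgroup.subset_closure
  simp only [Set.mem_iUnion]
  exact ⟨u, hu, hc⟩

theorem potential {U : Type*} [DecidableEq U] (X : Finset U) (hX : X.Nonempty) {ι : Type*} (M : Finset ι)
    (G : ι → Type) [∀ i, Group (G i)] [∀ i, Finite (G i)] (g : (i : ι) → U → Set (G i)) (δ : ℝ)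
    (hδ : 0 < δ) (hδ1 : δ ≤ 1)
    (h : ∀ i ∈ M, ∀ H : Subgroup (G i), H ≠ ⊤ →
      δ * X.card ≤ ({u | u ∈ X ∧ ∃ c ∈ g i u, c ∉ H} : Set U).ncard) :
    ∀ n : ℕ, ∃ S ⊆ X, S.card ≤ n ∧
      ∑ i ∈ M, (((gen (g i) S).index : ℝ) - 1) ≤
        (1 - δ / 2) ^ n * ∑ i ∈ M, ((Nat.card (G i) : ℝ) - 1) := by
  classical
  intro n
  induction n with
  | zero =>
    refine ⟨∅, by simp, by simp, ?_⟩
    rw [pow_zero, one_mul]
    apply le_of_eq
    apply sum_congr rfl
    intro i _
    have : gen (g i) ∅ = ⊥ := by
      unfold gen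
      simp
    rw [this, Subgroup.index_bot]
  | succ n ih =>
    obtain ⟨S, hSX, hSc, hS⟩ := ih
    have hXpos : (0 : ℝ) < X.card := by exact_mod_cast hX.card_pos
    have key : ∑ u ∈ X, ∑ i ∈ M, (((gen (g i) (insert u S)).index : ℝ) - 1) ≤
        ∑ _u ∈ X, (1 - δ / 2) ^ (n + 1) * ∑ i ∈ M, ((Nat.card (G i) : ℝ) - 1) := by
      rw [sum_comm]
      have h1 : ∀ i ∈ M, ∑ u ∈ X, (((gen (g i) (insert u S)).index : ℝ) - 1) ≤
          (((gen (g i) S).index : ℝ) - 1) * (X.card * (1 - δ / 2)) := by
        intro i hi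
        have hfin : (gen (g i) S).index ≠ 0 := Subgroup.index_ne_zero_of_finite
        have hidx : (1 : ℝ) ≤ (gen (g i) S).index := by
          have : 1 ≤ (gen (g i) S).index := Nat.one_le_iff_ne_zero.2 hfin
          exact_mod_cast this
        have h2 : ∀ u ∈ X, (((gen (g i) (insert u S)).index : ℝ) - 1) ≤
            (((gen (g i) S).index : ℝ) - 1) * (1 - if ∃ c ∈ g i u, c ∉ gen (g i) S then 1 / 2 else 0) := by
          intro u _
          have hle := gen_mono (g i) (subset_insert u S)
          have hmul := Subgroup.relIndex_mul_index hle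
          have hne : (gen (g i) (insert u S)).index ≠ 0 := Subgroup.index_ne_zero_of_finite
          have hne1 : (1 : ℝ) ≤ (gen (g i) (insert u S)).index := by
            have : 1 ≤ (gen (g i) (insert u S)).index := Nat.one_le_iff_ne_zero.2 hne
            exact_mod_cast this
          have hrel : (gen (g i) S).relIndex (gen (g i) (insert u S)) ≠ 0 := by
            intro h0
            rw [h0, zero_mul] at hmul
            exact hfin hmul.symm
          have hmul' : ((gen (g i) S).relIndex (gen (g i) (insert u S)) : ℝ) *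
              ((gen (g i) (insert u S)).index : ℝ) = ((gen (g i) S).index : ℝ) := by exact_mod_cast hmul
          by_cases hc : ∃ c ∈ g i u, c ∉ gen (g i) S
          · rw [if_pos hc]
            obtain ⟨c, hc1, hc2⟩ := hc
            have h3 : (gen (g i) S).relIndex (gen (g i) (insert u S)) ≠ 1 := by
              intro h4
              rw [Subgroup.relIndex_eq_one] at h4
              exact hc2 (h4 (mem_gen (g i) (mem_insert_self u S) hc1))
            have h5 : 2 ≤ (gen (g i) S).relIndex (gen (g i) (insert u S)) := by omega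
            have h6 : (2 : ℝ) ≤ (gen (g i) S).relIndex (gen (g i) (insert u S)) := by exact_mod_cast h5
            nlinarith
          · rw [if_neg hc]
            have h5 : 1 ≤ (gen (g i) S).relIndex (gen (g i) (insert u S)) := Nat.one_le_iff_ne_zero.2 hrel
            have h6 : (1 : ℝ) ≤ (gen (g i) S).relIndex (gen (g i) (insert u S)) := by exact_mod_cast h5
            nlinarith
        refine (sum_le_sum h2).trans ?_
        rw [← mul_sum]
        by_cases hT : gen (g i) S = ⊤
        · rw [hT, Subgroup.index_top]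
          simp
        apply mul_le_mul_of_nonneg_left _ (by linarith)
        rw [sum_sub_distrib, sum_const, nsmul_eq_mul, mul_one, ← sum_filter, sum_const, nsmul_eq_mul]
        have h7 := h i hi (gen (g i) S) hT
        have h8 : ({u | u ∈ X ∧ ∃ c ∈ g i u, c ∉ gen (g i) S} : Set U).ncard =
            (X.filter (fun u => ∃ c ∈ g i u, c ∉ gen (g i) S)).card := by
          rw [← Set.ncard_coe_finset]
          congr 1
          ext u
          simp
        rw [h8] at h7
        linarith
      refine (sum_le_sum h1).trans ?_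
      rw [← sum_mul, sum_const, nsmul_eq_mul]
      have h8 : (0 : ℝ) ≤ (X.card : ℝ) * (1 - δ / 2) := by
        apply mul_nonneg (by positivity)
        linarith
      calc (∑ i ∈ M, (((gen (g i) S).index : ℝ) - 1)) * (X.card * (1 - δ / 2))
          ≤ ((1 - δ / 2) ^ n * ∑ i ∈ M, ((Nat.card (G i) : ℝ) - 1)) * (X.card * (1 - δ / 2)) := by
            apply mul_le_mul_of_nonneg_right hS h8
        _ = _ := by
            rw [pow_succ]
            ring
    obtain ⟨u, hu, huv⟩ := exists_le_of_sum_le hX key
    refine ⟨insert u S, ?_, ?_, huv⟩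
    · intro z hz
      rcases mem_insert.1 hz with rfl | hz
      · exact hu
      · exact hSX hz
    · exact (card_insert_le u S).trans (by omega)

/-- few elements generate all the groups -/
theorem generate {U : Type*} [DecidableEq U] (X : Finset U) (hX : X.Nonempty) {ι : Type*} (M : Finset ι)
    (G : ι → Type) [∀ i, Group (G i)] [∀ i, Finite (G i)] (g : (i : ι) → U → Set (G i)) (δ : ℝ)
    (hδ : 0 < δ) (hδ1 : δ ≤ 1)
    (h : ∀ i ∈ M, ∀ H : Subgroup (G i), H ≠ ⊤ →
      δ * X.card ≤ ({u | u ∈ X ∧ ∃ c ∈ g i u, c ∉ H} : Set U).ncard)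
    (n : ℕ) (hn : (∑ i ∈ M, (Nat.card (G i) : ℝ)) * Real.exp (-(δ / 2 * n)) < 1) :
    ∃ S ⊆ X, S.card ≤ n ∧ ∀ i ∈ M, gen (g i) S = ⊤ := by
  obtain ⟨S, hSX, hSc, hS⟩ := potential X hX M G g δ hδ hδ1 h n
  refine ⟨S, hSX, hSc, ?_⟩
  intro i hi
  have hpos : ∀ j ∈ M, (0 : ℝ) ≤ ((gen (g j) S).index : ℝ) - 1 := by
    intro j _
    have : 1 ≤ (gen (g j) S).index := Nat.one_le_iff_ne_zero.2 Subgroup.index_ne_zero_of_finite
    have h1 : (1 : ℝ) ≤ (gen (g j) S).index := by exact_mod_cast this
    linarith
  have h1 : ((gen (g i) S).index : ℝ) - 1 < 1 := by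
    calc ((gen (g i) S).index : ℝ) - 1 ≤ ∑ j ∈ M, (((gen (g j) S).index : ℝ) - 1) :=
          single_le_sum (f := fun j => ((gen (g j) S).index : ℝ) - 1) hpos hi
      _ ≤ (1 - δ / 2) ^ n * ∑ i ∈ M, ((Nat.card (G i) : ℝ) - 1) := hS
      _ ≤ Real.exp (-(δ / 2 * n)) * ∑ i ∈ M, (Nat.card (G i) : ℝ) := by
          have h2 : 1 - δ / 2 ≤ Real.exp (-(δ / 2)) := by
            have := Real.add_one_le_exp (-(δ / 2))
            linarith
          have h3 : (1 - δ / 2) ^ n ≤ Real.exp (-(δ / 2 * n)) := by
            calc (1 - δ / 2) ^ n ≤ (Real.exp (-(δ / 2))) ^ n := pow_le_pow_left₀ (by linarith) h2 n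
              _ = Real.exp (-(δ / 2 * n)) := by
                  rw [← Real.exp_nat_mul]
                  congr 1
                  ring
          apply mul_le_mul h3 _ _ (Real.exp_pos _).le
          · apply sum_le_sum
            intro j _
            linarith
          · apply sum_nonneg
            intro j _
            have : 1 ≤ Nat.card (G j) := Nat.card_pos
            have h4 : (1 : ℝ) ≤ Nat.card (G j) := by exact_mod_cast this
            linarith
      _ < 1 := by
          rw [mul_comm]
          exact hn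
  have h2 : (gen (g i) S).index < 2 := by
    have : ((gen (g i) S).index : ℝ) < 2 := by linarith
    exact_mod_cast this
  have h3 : (gen (g i) S).index ≠ 0 := Subgroup.index_ne_zero_of_finite
  rw [← Subgroup.index_eq_one]
  omega

end Pool.Agent.H563.TW
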