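import Mathlib

/-!
# Choosing few elements which hit many dense sets many times
-/

set_option autoImplicit false

namespace Pool.Agent.H563.TW

open Finset

/-- One can choose `k` elements of `X` such that all the sets `H m` of density at least `δ` in `X` are hit often,
in the sense of an exponential mean. -/
theorem many {α ι : Type*} [DecidableEq α] (X : Finset α) (M : Finset ι) (H : ι → Finset α) (δ : ℝ)
    (hδ : 0 < δ) (hH : ∀ m ∈ M, H m ⊆ X) (hc : ∀ m ∈ M, δ * X.card ≤ (H m).card) :
    ∀ k : ℕ, (k : ℝ) ≤ δ / 2 * X.card → δ ≤ 1 →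
      ∃ S ⊆ X, S.card = k ∧
        ∑ m ∈ M, (1 / 2 : ℝ) ^ ((S ∩ H m).card) ≤ M.card * (1 - δ / 4) ^ k := by
  intro k
  induction k with
  | zero =>
    intro _ _
    refine ⟨∅, by simp, by simp, by simp⟩
  | succ k ih =>
    intro hk hδ1
    push_cast at hk
    obtain ⟨S, hSX, hSc, hS⟩ := ih (by linarith) hδ1
    have hXpos : (0 : ℝ) < X.card := by
      by_contra hcon
      have : (X.card : ℝ) = 0 := le_antisymm (not_lt.1 hcon) (by positivity)
      rw [this] at hk
      have : (0 : ℝ) ≤ k := by positivity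
      linarith
    have hRc : ((X \ S).card : ℝ) = X.card - k := by
      rw [card_sdiff_of_subset hSX, Nat.cast_sub (card_le_card hSX), hSc]
    have hRpos : (0 : ℝ) < (X \ S).card := by
      rw [hRc]
      nlinarith
    have hRne : (X \ S).Nonempty := by
      rw [← card_pos]
      exact_mod_cast hRpos
    have key : ∑ p ∈ X \ S, ∑ m ∈ M, (1 / 2 : ℝ) ^ ((insert p S ∩ H m).card) ≤
        ∑ _p ∈ X \ S, (M.card : ℝ) * (1 - δ / 4) ^ (k + 1) := by
      rw [sum_comm]
      have h1 : ∀ m ∈ M, ∑ p ∈ X \ S, (1 / 2 : ℝ) ^ ((insert p S ∩ H m).card) ≤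
          (1 / 2 : ℝ) ^ ((S ∩ H m).card) * ((X \ S).card * (1 - δ / 4)) := by
        intro m hm
        have h2 : ∀ p ∈ X \ S, (1 / 2 : ℝ) ^ ((insert p S ∩ H m).card) =
            (1 / 2 : ℝ) ^ ((S ∩ H m).card) * (1 - if p ∈ H m then 1 / 2 else 0) := by
          intro p hp
          rw [mem_sdiff] at hp
          by_cases hpH : p ∈ H m
          · rw [insert_inter_of_mem hpH, card_insert_of_notMem (by simp [hp.2]), pow_succ, if_pos hpH]
            ring
          · rw [insert_inter_of_notMem hpH, if_neg hpH]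
            ring
        rw [sum_congr rfl h2, ← mul_sum]
        apply mul_le_mul_of_nonneg_left _ (by positivity)
        rw [sum_sub_distrib, sum_const, nsmul_eq_mul, mul_one, ← sum_filter, sum_const, nsmul_eq_mul]
        have h3 : (filter (fun p => p ∈ H m) (X \ S)) = H m \ S := by
          ext p
          simp only [mem_filter, mem_sdiff]
          constructor
          · rintro ⟨⟨_, h⟩, h'⟩
            exact ⟨h', h⟩
          · rintro ⟨h', h⟩
            exact ⟨⟨hH m hm h', h⟩, h'⟩
        rw [h3]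
        have h4 : ((H m).card : ℝ) ≤ (H m \ S).card + k := by
          have h5 : (H m).card ≤ (H m \ S).card + S.card := by
            have := card_le_card (show H m ⊆ (H m \ S) ∪ S by
              intro z hz
              by_cases hzS : z ∈ S
              · exact mem_union_right _ hzS
              · exact mem_union_left _ (mem_sdiff.2 ⟨hz, hzS⟩))
            exact this.trans (card_union_le _ _)
          rw [hSc] at h5
          exact_mod_cast h5
        have h6 := hc m hm
        have h7 : δ / 2 * ((X \ S).card : ℝ) ≤ (H m \ S).card := by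
          rw [hRc]
          have : (0 : ℝ) ≤ k := by positivity
          nlinarith
        nlinarith
      refine (sum_le_sum h1).trans ?_
      rw [← sum_mul, sum_const, nsmul_eq_mul]
      have h8 : (0 : ℝ) ≤ ((X \ S).card : ℝ) * (1 - δ / 4) := by
        apply mul_nonneg (by positivity)
        linarith
      calc (∑ m ∈ M, (1 / 2 : ℝ) ^ ((S ∩ H m).card)) * ((X \ S).card * (1 - δ / 4))
          ≤ (M.card * (1 - δ / 4) ^ k) * ((X \ S).card * (1 - δ / 4)) := by
            apply mul_le_mul_of_nonneg_right hS h8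
        _ = _ := by
            rw [pow_succ]
            ring
    obtain ⟨p, hp, hpv⟩ := exists_le_of_sum_le hRne key
    rw [mem_sdiff] at hp
    refine ⟨insert p S, ?_, ?_, hpv⟩
    · intro z hz
      rcases mem_insert.1 hz with rfl | hz
      · exact hp.1
      · exact hSX hz
    · rw [card_insert_of_notMem hp.2, hSc]

/-- The number of the hits is at least `t` for all the sets, if `|M| exp (-δ k / 4) ≤ exp (-t)`. -/
theorem hits {α ι : Type*} [DecidableEq α] (X : Finset α) (M : Finset ι) (H : ι → Finset α) (δ t : ℝ)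
    (hδ : 0 < δ) (hδ1 : δ ≤ 1) (ht : 0 ≤ t) (hH : ∀ m ∈ M, H m ⊆ X)
    (hc : ∀ m ∈ M, δ * X.card ≤ (H m).card) (k : ℕ) (hk : (k : ℝ) ≤ δ / 2 * X.card)
    (hM : (M.card : ℝ) * Real.exp (-(δ / 4 * k)) ≤ Real.exp (-t)) :
    ∃ S ⊆ X, S.card = k ∧ ∀ m ∈ M, t ≤ (S ∩ H m).card := by
  obtain ⟨S, hSX, hSc, hS⟩ := many X M H δ hδ hH hc k hk hδ1
  refine ⟨S, hSX, hSc, ?_⟩
  intro m hm
  have h1 : (1 / 2 : ℝ) ^ ((S ∩ H m).card) ≤ Real.exp (-t) := by
    calc (1 / 2 : ℝ) ^ ((S ∩ H m).card) ≤ ∑ m ∈ M, (1 / 2 : ℝ) ^ ((S ∩ H m).card) :=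
          single_le_sum (f := fun m => (1 / 2 : ℝ) ^ ((S ∩ H m).card)) (fun i _ => by positivity) hm
      _ ≤ M.card * (1 - δ / 4) ^ k := hS
      _ ≤ M.card * Real.exp (-(δ / 4 * k)) := by
          apply mul_le_mul_of_nonneg_left _ (by positivity)
          have h2 : 1 - δ / 4 ≤ Real.exp (-(δ / 4)) := by
            have := Real.add_one_le_exp (-(δ / 4))
            linarith
          calc (1 - δ / 4) ^ k ≤ (Real.exp (-(δ / 4))) ^ k := pow_le_pow_left₀ (by linarith) h2 k
            _ = Real.exp (-(δ / 4 * k)) := by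
                rw [← Real.exp_nat_mul]
                congr 1
                ring
      _ ≤ Real.exp (-t) := hM
  have h2 : Real.exp (-((S ∩ H m).card : ℝ)) ≤ (1 / 2 : ℝ) ^ ((S ∩ H m).card) := by
    have h3 : Real.exp (-((S ∩ H m).card : ℝ)) = (Real.exp (-1)) ^ ((S ∩ H m).card) := by
      rw [← Real.exp_nat_mul]
      congr 1
      ring
    rw [h3]
    apply pow_le_pow_left₀ (Real.exp_pos _).le
    rw [Real.exp_neg, one_div]
    apply inv_anti₀ (by norm_num)
    have := Real.add_one_le_exp (1 : ℝ)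
    linarith
  have h3 := h2.trans h1
  rw [Real.exp_le_exp] at h3
  linarith

end Pool.Agent.H563.TW
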