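import Pool.Agent.H563.TW.Hit

/-!
# A thin set of primes which meets every set of primes from a small family with positive relative density
-/

set_option autoImplicit false

namespace Pool.Agent.H563.TW

open Finset Filter

/-- the primes in `(u, v]` -/
def PB (u v : ℕ) : Finset ℕ := (Ioc u v).filter Nat.Prime

theorem mem_PB {u v p : ℕ} : p ∈ PB u v ↔ (u < p ∧ p ≤ v) ∧ p.Prime := by
  unfold PB
  rw [mem_filter, mem_Ioc]

theorem PB_mono (u : ℕ) {v w : ℕ} (h : v ≤ w) : PB u v ⊆ PB u w := by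
  intro p hp
  rw [mem_PB] at hp ⊢
  exact ⟨⟨hp.1.1, hp.1.2.trans h⟩, hp.2⟩

theorem PB_card (n : ℕ) : (PB 0 n).card = n.primeCounting := by
  unfold PB
  rw [Nat.primeCounting, Nat.primeCounting', Nat.count_eq_card_filter_range]
  congr 1
  ext p
  simp only [mem_filter, mem_Ioc, mem_range]
  constructor
  · rintro ⟨⟨_, h⟩, hp⟩
    exact ⟨by omega, hp⟩
  · rintro ⟨h, hp⟩
    exact ⟨⟨hp.pos, by omega⟩, hp⟩

theorem cheb : ∃ s₁ : ℕ, 1 ≤ s₁ ∧ ∀ s, s₁ ≤ s →
    (2 : ℝ) ^ s / (2 * s) ≤ ((PB 0 (2 ^ s)).card : ℝ) ∧ ((PB 0 (2 ^ s)).card : ℝ) ≤ 3 * 2 ^ s / s := by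
  have hl2 : 0 < Real.log 2 := Real.log_pos (by norm_num)
  obtain ⟨x₀, hx₀⟩ := eventually_atTop.1 (Chebyshev.eventually_primeCounting_le hl2)
  have hpow : ∀ s : ℕ, 3 ≤ s → 2 * (s + 1) ≤ 2 ^ s := by
    intro s hs
    induction s, hs using Nat.le_induction with
    | base => norm_num
    | succ s hs ih =>
      rw [pow_succ]
      omega
  obtain ⟨s₂, hs₂⟩ : ∃ s₂ : ℕ, x₀ ≤ (2 : ℝ) ^ s₂ := by
    obtain ⟨k, hk⟩ := pow_unbounded_of_one_lt x₀ (show (1 : ℝ) < 2 by norm_num)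
    exact ⟨k, hk.le⟩
  refine ⟨max 3 s₂, by omega, ?_⟩
  intro s hs
  have hs3 : 3 ≤ s := by omega
  have hs0 : (0 : ℝ) < s := by
    have : 0 < s := by omega
    exact_mod_cast this
  rw [PB_card]
  constructor
  · have h1 := Chebyshev.pi_ge (2 ^ s)
    refine le_trans ?_ h1
    push_cast
    rw [Real.log_pow, div_le_div_iff₀ (by positivity) (by positivity)]
    have h2 : Real.log ((2 : ℝ) ^ s + 1) ≤ (s + 1) * Real.log 2 := by
      have h3 : ((2 : ℝ) ^ s + 1) ≤ 2 ^ (s + 1) := by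
        have : (1 : ℝ) ≤ 2 ^ s := one_le_pow₀ (by norm_num)
        rw [pow_succ]
        linarith
      have h4 := Real.log_le_log (by positivity) h3
      rw [Real.log_pow] at h4
      push_cast at h4
      exact h4
    have h5 : 2 * ((s : ℝ) + 1) ≤ 2 ^ s := by exact_mod_cast hpow s hs3
    have h6 : Real.log ((2 : ℝ) ^ s + 1) ≤ 2 ^ s / 2 * Real.log 2 := by
      refine h2.trans ?_
      apply mul_le_mul_of_nonneg_right _ hl2.le
      linarith
    nlinarith
  · have h1 := hx₀ ((2 : ℝ) ^ s) (hs₂.trans (pow_le_pow_right₀ (by norm_num) (by omega)))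
    have h2 : ⌊(2 : ℝ) ^ s⌋₊ = 2 ^ s := by
      have : ((2 ^ s : ℕ) : ℝ) = (2 : ℝ) ^ s := by push_cast; rfl
      rw [← this, Nat.floor_natCast]
    rw [h2] at h1
    refine h1.trans (le_of_eq ?_)
    rw [Real.log_pow, show Real.log 4 = 2 * Real.log 2 by
      rw [show (4 : ℝ) = 2 ^ 2 by norm_num, Real.log_pow]
      norm_num]
    field_simp
    ring

theorem thin (a : ℝ) (ha : 1 < a) (δ : ℝ) (hδ : 0 < δ) (hδ1 : δ ≤ 1) :
    ∃ (C : ℝ) (T₀ : ℕ), 0 < C ∧ ∀ W : ℕ → ℕ → Prop, ∃ B : Set ℕ, (∀ b ∈ B, b.Prime) ∧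
      (∀ y : ℕ, 1 ≤ y → ({b | b ∈ B ∧ b ≤ y}.ncard : ℝ) ≤ C * (y : ℝ) ^ (1 / a)) ∧
      ∀ n T : ℕ, T₀ ≤ T → Real.log n ≤ (T : ℝ) ^ (1 / a) →
        δ * (PB 0 T).card ≤ ({b | b ∈ PB 0 T ∧ W n b}.ncard : ℝ) →
        (T : ℝ) ^ (1 / a) ≤ ({b | b ∈ B ∧ b ≤ T ∧ W n b}.ncard : ℝ) := by
  classical
  have ha0 : 0 < a := by linarith
  obtain ⟨s₁, hs₁1, hcheb⟩ := cheb
  obtain ⟨L, hL⟩ : ∃ L : ℕ, (1 / 2 : ℝ) ^ L < δ / 24 := exists_pow_lt_of_lt_one (by positivity) (by norm_num)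
  obtain ⟨ρ, hρ⟩ : ∃ ρ : ℝ, ρ = (2 : ℝ) ^ (1 / a) := ⟨_, rfl⟩
  have hρ1 : 1 < ρ := by
    rw [hρ]
    exact Real.one_lt_rpow (by norm_num) (by positivity)
  have hρ2 : ρ < 2 := by
    rw [hρ]
    calc (2 : ℝ) ^ (1 / a) < 2 ^ (1 : ℝ) := by
          apply Real.rpow_lt_rpow_of_exponent_lt (by norm_num)
          rw [div_lt_one ha0]
          exact ha
      _ = 2 := Real.rpow_one 2
  have hρpow : ∀ s : ℕ, ρ ^ s = ((2 : ℝ) ^ s) ^ (1 / a) := by
    intro s
    rw [hρ, ← Real.rpow_natCast, ← Real.rpow_natCast, ← Real.rpow_mul (by norm_num), ← Real.rpow_mul (by norm_num),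
      mul_comm]
  obtain ⟨d, hd⟩ : ∃ d : ℝ, d = δ / 24 := ⟨_, rfl⟩
  have hd0 : 0 < d := by rw [hd]; positivity
  have hd1 : d ≤ 1 := by rw [hd]; linarith
  obtain ⟨C₁, hC₁⟩ : ∃ C₁ : ℝ, C₁ = 12 / d * ρ + 1 := ⟨_, rfl⟩
  have hC₁0 : 0 < C₁ := by rw [hC₁]; positivity
  obtain ⟨k, hk⟩ : ∃ k : ℕ → ℕ, ∀ s, k s = ⌈12 / d * ρ ^ (s + 1)⌉₊ := ⟨_, fun _ => rfl⟩
  have hkle : ∀ s, (k s : ℝ) ≤ C₁ * ρ ^ s := by
    intro s
    rw [hk s]
    have h1 := (Nat.ceil_lt_add_one (show (0 : ℝ) ≤ 12 / d * ρ ^ (s + 1) by positivity)).le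
    have h2 : (1 : ℝ) ≤ ρ ^ s := one_le_pow₀ hρ1.le
    rw [hC₁]
    have h3 : 12 / d * ρ ^ (s + 1) + 1 ≤ (12 / d * ρ + 1) * ρ ^ s := by
      rw [pow_succ]
      linarith
    exact h1.trans h3
  have hkge : ∀ s, 12 / d * ρ ^ (s + 1) ≤ k s := by
    intro s
    rw [hk s]
    exact Nat.le_ceil _
  -- eventual conditions
  have ev1 : ∀ᶠ s : ℕ in atTop, (s : ℝ) * (ρ / 2) ^ s ≤ d / (8 * C₁) := by
    have := tendsto_self_mul_const_pow_of_lt_one (r := ρ / 2) (by positivity) (by linarith)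
    exact this.eventually_le_const (by positivity)
  have ev2 : ∀ᶠ s : ℕ in atTop, ((s : ℝ) + 2) * Real.log 2 ≤ ρ ^ (s + 1) := by
    have h1 := tendsto_self_mul_const_pow_of_lt_one (r := 1 / ρ) (by positivity) (by
      rw [div_lt_one (by linarith)]
      exact hρ1)
    have h2 : ∀ᶠ s : ℕ in atTop, (s : ℝ) * (1 / ρ) ^ s ≤ 1 / 3 := h1.eventually_le_const (by norm_num)
    filter_upwards [h2, eventually_ge_atTop 1] with s hs hs1
    have hs1r : (1 : ℝ) ≤ s := by exact_mod_cast hs1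
    have hρs : 0 < ρ ^ s := by positivity
    have h3 : (s : ℝ) ≤ 1 / 3 * ρ ^ s := by
      rw [one_div, inv_pow, ← div_eq_mul_inv, div_le_iff₀ hρs] at hs
      rw [one_div]
      linarith
    have h4 : Real.log 2 ≤ 1 := by
      have := Real.log_two_lt_d9
      linarith
    have h5 : ρ ^ s ≤ ρ ^ (s + 1) := pow_le_pow_right₀ hρ1.le (by omega)
    have h6 : 0 < Real.log 2 := Real.log_pos (by norm_num)
    calc ((s : ℝ) + 2) * Real.log 2 ≤ (3 * s) * 1 := by
          apply mul_le_mul (by linarith) h4 h6.le (by positivity)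
      _ ≤ ρ ^ (s + 1) := by linarith
  obtain ⟨s₂, hs₂⟩ := eventually_atTop.1 (ev1.and ev2)
  obtain ⟨s₀, hs₀⟩ : ∃ s₀ : ℕ, s₀ = s₂ + s₁ + 2 * L + 1 := ⟨_, rfl⟩
  -- Chebyshev consequences
  have hlow : ∀ s, s₀ ≤ s → ((PB 0 (2 ^ (s - L))).card : ℝ) ≤ δ / 2 * (PB 0 (2 ^ s)).card := by
    intro s hs
    have h1 := (hcheb (s - L) (by omega)).2
    have h2 := (hcheb s (by omega)).1
    have hsL : (s : ℝ) / 2 ≤ ((s - L : ℕ) : ℝ) := by
      rw [Nat.cast_sub (by omega)]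
      have : (2 * L : ℝ) ≤ s := by
        have : 2 * L ≤ s := by omega
        exact_mod_cast this
      linarith
    have hs0 : (0 : ℝ) < s := by
      have : 0 < s := by omega
      exact_mod_cast this
    have h3 : (2 : ℝ) ^ (s - L) = 2 ^ s * (1 / 2) ^ L := by
      rw [one_div, inv_pow, ← div_eq_mul_inv, eq_div_iff (by positivity), ← pow_add]
      congr 1
      omega
    calc ((PB 0 (2 ^ (s - L))).card : ℝ) ≤ 3 * 2 ^ (s - L) / ((s - L : ℕ) : ℝ) := h1
      _ ≤ 3 * 2 ^ (s - L) / ((s : ℝ) / 2) := by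
          apply div_le_div_of_nonneg_left (by positivity) (by positivity) hsL
      _ ≤ δ / 2 * (2 ^ s / (2 * s)) := by
          rw [h3]
          have h4 : (2 : ℝ) ^ s * (1 / 2) ^ L ≤ 2 ^ s * (δ / 24) := by
            apply mul_le_mul_of_nonneg_left hL.le (by positivity)
          calc 3 * ((2 : ℝ) ^ s * (1 / 2) ^ L) / ((s : ℝ) / 2) ≤ 3 * (2 ^ s * (δ / 24)) / ((s : ℝ) / 2) := by
                apply div_le_div_of_nonneg_right (by linarith) (by positivity)
            _ = δ / 2 * (2 ^ s / (2 * s)) := by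
                field_simp
                ring
      _ ≤ δ / 2 * (PB 0 (2 ^ s)).card := by
          apply mul_le_mul_of_nonneg_left h2 (by positivity)
  obtain ⟨X, hX⟩ : ∃ X : ℕ → Finset ℕ, ∀ s, X s = PB (2 ^ (s - L)) (2 ^ (s + 1)) := ⟨_, fun _ => rfl⟩
  have hXup : ∀ s, s₀ ≤ s → ((X s).card : ℝ) ≤ 12 * (PB 0 (2 ^ s)).card := by
    intro s hs
    have h1 := (hcheb (s + 1) (by omega)).2
    have h2 := (hcheb s (by omega)).1
    have hs0 : (0 : ℝ) < s := by
      have : 0 < s := by omega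
      exact_mod_cast this
    have h3 : (X s).card ≤ (PB 0 (2 ^ (s + 1))).card := by
      apply card_le_card
      rw [hX]
      intro p hp
      rw [mem_PB] at hp ⊢
      exact ⟨⟨hp.2.pos, hp.1.2⟩, hp.2⟩
    calc ((X s).card : ℝ) ≤ ((PB 0 (2 ^ (s + 1))).card : ℝ) := by exact_mod_cast h3
      _ ≤ 3 * 2 ^ (s + 1) / ((s + 1 : ℕ) : ℝ) := h1
      _ ≤ 3 * 2 ^ (s + 1) / (s : ℝ) := by
          apply div_le_div_of_nonneg_left (by positivity) hs0
          push_cast
          linarith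
      _ = 12 * (2 ^ s / (2 * s)) := by
          rw [pow_succ]
          field_simp
          ring
      _ ≤ _ := by linarith
  have hXlow : ∀ s, s₀ ≤ s → (2 : ℝ) ^ s / (4 * s) ≤ ((X s).card : ℝ) := by
    intro s hs
    have h1 := hlow s hs
    have h2 := (hcheb s (by omega)).1
    have hs0 : (0 : ℝ) < s := by
      have : 0 < s := by omega
      exact_mod_cast this
    have h3 : (PB 0 (2 ^ s)).card ≤ (PB 0 (2 ^ (s - L))).card + (X s).card := by
      refine (card_le_card ?_).trans (card_union_le _ _)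
      intro p hp
      rw [mem_PB] at hp
      rw [mem_union, hX, mem_PB, mem_PB]
      by_cases h : p ≤ 2 ^ (s - L)
      · exact Or.inl ⟨⟨hp.1.1, h⟩, hp.2⟩
      · refine Or.inr ⟨⟨by omega, hp.1.2.trans ?_⟩, hp.2⟩
        exact Nat.pow_le_pow_right (by norm_num) (by omega)
    have h4 : ((PB 0 (2 ^ s)).card : ℝ) ≤ (PB 0 (2 ^ (s - L))).card + (X s).card := by exact_mod_cast h3
    have h5 : δ / 2 * ((PB 0 (2 ^ s)).card : ℝ) ≤ 1 / 2 * (PB 0 (2 ^ s)).card := by
      apply mul_le_mul_of_nonneg_right (by linarith) (by positivity)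
    have h6 : (2 : ℝ) ^ s / (4 * s) = 1 / 2 * (2 ^ s / (2 * s)) := by
      field_simp
      ring
    rw [h6]
    linarith
  refine ⟨C₁ * ρ ^ (L + 1) / (ρ - 1), 2 ^ s₀, by
    apply div_pos (by positivity)
    linarith, ?_⟩
  intro W
  obtain ⟨H, hH⟩ : ∃ H : ℕ → ℕ × ℕ → Finset ℕ, ∀ s z, H s z = (X s).filter (fun p => p ≤ z.2 ∧ W z.1 p) :=
    ⟨_, fun _ _ => rfl⟩
  obtain ⟨M, hMdef⟩ : ∃ M : ℕ → Finset (ℕ × ℕ), ∀ s, M s = ((range (⌊Real.exp (ρ ^ (s + 1))⌋₊ + 1)) ×ˢ
      (range (2 ^ (s + 1)))).filter (fun z => d * (X s).card ≤ (H s z).card) := ⟨_, fun _ => rfl⟩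
  have sel : ∀ s, ∃ S : Finset ℕ, s₀ ≤ s → S ⊆ X s ∧ S.card = k s ∧ ∀ z ∈ M s, ρ ^ (s + 1) ≤ ((S ∩ H s z).card : ℝ) := by
    intro s
    by_cases hs : s₀ ≤ s
    swap
    · exact ⟨∅, fun h => absurd h hs⟩
    obtain ⟨S, h1, h2, h3⟩ := hits (X s) (M s) (H s) d (ρ ^ (s + 1)) hd0 hd1 (by positivity) (by
      intro z _
      rw [hH]
      exact filter_subset _ _) (by
      intro z hz
      rw [hMdef, mem_filter] at hz
      exact hz.2) (k s) (by
      have hs0 : (0 : ℝ) < s := by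
        have : 0 < s := by omega
        exact_mod_cast this
      have e1 := (hs₂ s (by omega)).1
      rw [div_pow, ← mul_div_assoc, div_le_div_iff₀ (by positivity) (by positivity)] at e1
      have e2 := hXlow s hs
      have e3 : C₁ * ρ ^ s ≤ d / 2 * (2 ^ s / (4 * s)) := by
        have : d / 2 * ((2 : ℝ) ^ s / (4 * s)) = d * 2 ^ s / (8 * s) := by
          field_simp
          ring
        rw [this, le_div_iff₀ (by positivity)]
        linarith
      calc (k s : ℝ) ≤ C₁ * ρ ^ s := hkle s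
        _ ≤ d / 2 * (2 ^ s / (4 * s)) := e3
        _ ≤ d / 2 * (X s).card := by
            apply mul_le_mul_of_nonneg_left e2 (by positivity)) (by
      have e1 : ((M s).card : ℝ) ≤ Real.exp (2 * ρ ^ (s + 1)) := by
        have f1 : (M s).card ≤ (⌊Real.exp (ρ ^ (s + 1))⌋₊ + 1) * 2 ^ (s + 1) := by
          rw [hMdef]
          refine (card_filter_le _ _).trans ?_
          rw [card_product, card_range, card_range]
        have f2 : ((M s).card : ℝ) ≤ (⌊Real.exp (ρ ^ (s + 1))⌋₊ + 1) * 2 ^ (s + 1) := by exact_mod_cast f1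
        have f3 : ((⌊Real.exp (ρ ^ (s + 1))⌋₊ : ℕ) : ℝ) + 1 ≤ 2 * Real.exp (ρ ^ (s + 1)) := by
          have g1 := Nat.floor_le (Real.exp_pos (ρ ^ (s + 1))).le
          have g2 : 1 ≤ Real.exp (ρ ^ (s + 1)) := Real.one_le_exp (by positivity)
          linarith
        have f4 := (hs₂ s (by omega)).2
        calc ((M s).card : ℝ) ≤ (⌊Real.exp (ρ ^ (s + 1))⌋₊ + 1) * 2 ^ (s + 1) := f2
          _ ≤ (2 * Real.exp (ρ ^ (s + 1))) * 2 ^ (s + 1) := by
              apply mul_le_mul_of_nonneg_right f3 (by positivity)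
          _ = Real.exp (ρ ^ (s + 1) + (s + 2) * Real.log 2) := by
              rw [Real.exp_add, show ((s : ℝ) + 2) * Real.log 2 = Real.log (2 ^ (s + 2)) by
                rw [Real.log_pow]
                push_cast
                ring, Real.exp_log (by positivity), show s + 2 = (s + 1) + 1 by ring, pow_succ (2 : ℝ) (s + 1)]
              ring
          _ ≤ Real.exp (2 * ρ ^ (s + 1)) := by
              rw [Real.exp_le_exp]
              linarith
      have e2 : Real.exp (-(d / 4 * k s)) ≤ Real.exp (-(3 * ρ ^ (s + 1))) := by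
        rw [Real.exp_le_exp]
        have := hkge s
        have e3 : d / 4 * (12 / d * ρ ^ (s + 1)) ≤ d / 4 * k s := mul_le_mul_of_nonneg_left this (by positivity)
        have e4 : d / 4 * (12 / d * ρ ^ (s + 1)) = 3 * ρ ^ (s + 1) := by
          field_simp
          ring
        linarith
      calc ((M s).card : ℝ) * Real.exp (-(d / 4 * k s)) ≤
            Real.exp (2 * ρ ^ (s + 1)) * Real.exp (-(3 * ρ ^ (s + 1))) := by
              apply mul_le_mul e1 e2 (Real.exp_pos _).le (Real.exp_pos _).le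
        _ = Real.exp (-(ρ ^ (s + 1))) := by
              rw [← Real.exp_add]
              congr 1
              ring)
    exact ⟨S, fun _ => ⟨h1, h2, h3⟩⟩
  choose S hS using sel
  refine ⟨{b | ∃ s, s₀ ≤ s ∧ b ∈ S s}, ?_, ?_, ?_⟩
  · rintro b ⟨s, hs, hb⟩
    have := (hS s hs).1 hb
    rw [hX, mem_PB] at this
    exact this.2
  · intro y hy
    have hsub : {b | b ∈ {b | ∃ s, s₀ ≤ s ∧ b ∈ S s} ∧ b ≤ y} ⊆
        (((range (Nat.log 2 y + L + 1)).filter (fun s => s₀ ≤ s)).biUnion S : Finset ℕ) := by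
      rintro b ⟨⟨s, hs, hb⟩, hby⟩
      rw [mem_coe, mem_biUnion]
      refine ⟨s, ?_, hb⟩
      have h1 := (hS s hs).1 hb
      rw [hX, mem_PB] at h1
      rw [mem_filter, mem_range]
      refine ⟨?_, hs⟩
      have h2 : 2 ^ (s - L) ≤ y := by omega
      have h3 := Nat.le_log_of_pow_le (by norm_num) h2
      omega
    have h1 : {b | b ∈ {b | ∃ s, s₀ ≤ s ∧ b ∈ S s} ∧ b ≤ y}.ncard ≤
        (((range (Nat.log 2 y + L + 1)).filter (fun s => s₀ ≤ s)).biUnion S).card := by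
      rw [← Set.ncard_coe_finset]
      exact Set.ncard_le_ncard hsub (Finset.finite_toSet _)
    have h2 : ((((range (Nat.log 2 y + L + 1)).filter (fun s => s₀ ≤ s)).biUnion S).card : ℝ) ≤
        ∑ s ∈ (range (Nat.log 2 y + L + 1)).filter (fun s => s₀ ≤ s), C₁ * ρ ^ s := by
      have h3 : (((range (Nat.log 2 y + L + 1)).filter (fun s => s₀ ≤ s)).biUnion S).card ≤
          ∑ s ∈ (range (Nat.log 2 y + L + 1)).filter (fun s => s₀ ≤ s), (S s).card := card_biUnion_le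
      calc ((((range (Nat.log 2 y + L + 1)).filter (fun s => s₀ ≤ s)).biUnion S).card : ℝ) ≤
            ∑ s ∈ (range (Nat.log 2 y + L + 1)).filter (fun s => s₀ ≤ s), ((S s).card : ℝ) := by exact_mod_cast h3
        _ ≤ _ := by
            apply sum_le_sum
            intro s hs
            rw [mem_filter] at hs
            rw [(hS s hs.2).2.1]
            exact hkle s
    have h3 : ∑ s ∈ (range (Nat.log 2 y + L + 1)).filter (fun s => s₀ ≤ s), C₁ * ρ ^ s ≤
        C₁ * (ρ ^ (Nat.log 2 y + L + 1) / (ρ - 1)) := by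
      calc ∑ s ∈ (range (Nat.log 2 y + L + 1)).filter (fun s => s₀ ≤ s), C₁ * ρ ^ s ≤
            ∑ s ∈ range (Nat.log 2 y + L + 1), C₁ * ρ ^ s := by
              apply sum_le_sum_of_subset_of_nonneg (filter_subset _ _)
              intro s _ _
              positivity
        _ = C₁ * ((ρ ^ (Nat.log 2 y + L + 1) - 1) / (ρ - 1)) := by
              rw [← mul_sum, geom_sum_eq hρ1.ne']
        _ ≤ _ := by
              apply mul_le_mul_of_nonneg_left _ hC₁0.le
              apply div_le_div_of_nonneg_right (by linarith) (by linarith)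
    have h4 : ρ ^ (Nat.log 2 y) ≤ (y : ℝ) ^ (1 / a) := by
      rw [hρpow]
      apply Real.rpow_le_rpow (by positivity) _ (by positivity)
      have := Nat.pow_log_le_self 2 (show y ≠ 0 by omega)
      exact_mod_cast this
    calc (({b | b ∈ {b | ∃ s, s₀ ≤ s ∧ b ∈ S s} ∧ b ≤ y}.ncard : ℕ) : ℝ) ≤ _ := by exact_mod_cast h1
      _ ≤ _ := h2
      _ ≤ _ := h3
      _ = C₁ * ρ ^ (L + 1) / (ρ - 1) * ρ ^ (Nat.log 2 y) := by
          rw [show Nat.log 2 y + L + 1 = (L + 1) + Nat.log 2 y by ring, pow_add]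
          ring
      _ ≤ C₁ * ρ ^ (L + 1) / (ρ - 1) * (y : ℝ) ^ (1 / a) := by
          apply mul_le_mul_of_nonneg_left h4
          apply div_nonneg (by positivity)
          linarith
  · intro n T hT hn hW
    obtain ⟨s, hs⟩ : ∃ s, s = Nat.log 2 T := ⟨_, rfl⟩
    have hT0 : T ≠ 0 := by
      have : 0 < 2 ^ s₀ := by positivity
      omega
    have e1 : 2 ^ s ≤ T := by
      rw [hs]
      exact Nat.pow_log_le_self 2 hT0
    have e2 : T < 2 ^ (s + 1) := by
      rw [hs]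
      exact Nat.lt_pow_succ_log_self (by norm_num) _
    have hss : s₀ ≤ s := by
      rw [hs]
      exact Nat.le_log_of_pow_le (by norm_num) hT
    obtain ⟨h1, h2, h3⟩ := hS s hss
    have hTρ : (T : ℝ) ^ (1 / a) ≤ ρ ^ (s + 1) := by
      rw [hρpow]
      apply Real.rpow_le_rpow (by positivity) _ (by positivity)
      exact_mod_cast e2.le
    have hmem : (n, T) ∈ M s := by
      rw [hMdef, mem_filter, mem_product, mem_range, mem_range]
      refine ⟨⟨?_, e2⟩, ?_⟩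
      · rw [Nat.lt_succ_iff]
        apply Nat.le_floor
        rcases Nat.eq_zero_or_pos n with h0 | h0
        · rw [h0]
          push_cast
          exact (Real.exp_pos _).le
        · rw [← Real.log_le_iff_le_exp (by exact_mod_cast h0)]
          exact hn.trans hTρ
      · have f1 := hlow s hss
        have f2 := hXup s hss
        have f3 : {b | b ∈ PB 0 T ∧ W n b}.ncard ≤ (PB 0 (2 ^ (s - L)) ∪ H s (n, T)).card := by
          rw [← Set.ncard_coe_finset]
          apply Set.ncard_le_ncard _ (Finset.finite_toSet _)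
          rintro b ⟨hb, hWb⟩
          rw [mem_PB] at hb
          rw [mem_coe, mem_union, hH, mem_filter, hX, mem_PB, mem_PB]
          by_cases h : b ≤ 2 ^ (s - L)
          · exact Or.inl ⟨⟨hb.1.1, h⟩, hb.2⟩
          · exact Or.inr ⟨⟨⟨by omega, by omega⟩, hb.2⟩, hb.1.2, hWb⟩
        have f4 := f3.trans (card_union_le _ _)
        have f5 : ({b | b ∈ PB 0 T ∧ W n b}.ncard : ℝ) ≤ (PB 0 (2 ^ (s - L))).card + (H s (n, T)).card := by
          exact_mod_cast f4
        have f6 : ((PB 0 (2 ^ s)).card : ℝ) ≤ (PB 0 T).card := by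
          exact_mod_cast card_le_card (PB_mono 0 e1)
        have f7 : δ * ((PB 0 (2 ^ s)).card : ℝ) ≤ δ * (PB 0 T).card := mul_le_mul_of_nonneg_left f6 hδ.le
        have f8 : d * ((X s).card : ℝ) ≤ δ / 24 * (12 * (PB 0 (2 ^ s)).card) := by
          rw [hd]
          apply mul_le_mul_of_nonneg_left f2 (by positivity)
        linarith
    have h4 := h3 (n, T) hmem
    have h5 : (S s ∩ H s (n, T)).card ≤ {b | b ∈ {b | ∃ s, s₀ ≤ s ∧ b ∈ S s} ∧ b ≤ T ∧ W n b}.ncard := by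
      rw [← Set.ncard_coe_finset]
      apply Set.ncard_le_ncard
      · intro b hb
        rw [mem_coe, mem_inter, hH, mem_filter] at hb
        exact ⟨⟨s, hss, hb.1⟩, hb.2.2.1, hb.2.2.2⟩
      · apply Set.Finite.subset (Set.finite_Iic T)
        rintro b ⟨_, hb, _⟩
        exact hb
    have h6 : ((S s ∩ H s (n, T)).card : ℝ) ≤
        ({b | b ∈ {b | ∃ s, s₀ ≤ s ∧ b ∈ S s} ∧ b ≤ T ∧ W n b}.ncard : ℝ) := by exact_mod_cast h5
    exact hTρ.trans (h4.trans h6)

end Pool.Agent.H563.TW
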