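import Pool.Agent.H563.TW.Thin
import Pool.Agent.H563.TW.Grp

/-!
# A thin set of primes which generates all finite groups of a small family
-/

set_option autoImplicit false

namespace Pool.Agent.H563.TW

open Finset Filter

theorem PB_nonempty (s : ℕ) : (PB (2 ^ s) (2 ^ (s + 2))).Nonempty := by
  obtain ⟨p, hp, h1, h2⟩ := Nat.exists_prime_lt_and_le_two_mul (2 ^ s) (by positivity)
  refine ⟨p, ?_⟩
  rw [mem_PB]
  refine ⟨⟨h1, h2.trans ?_⟩, hp⟩
  rw [pow_succ, pow_succ]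
  have : 0 < 2 ^ s := by positivity
  omega

/-- A thin set of primes `B`: at every level `s` the primes of `B` in `(2 ^ s, 2 ^ (s + 2)]` generate all the groups of
the level. -/
theorem thinGen (a : ℝ) (ha : 1 < a) (A : ℝ) (hA : 1 ≤ A) : ∃ C : ℝ, 0 < C ∧
    ∀ {ι : Type} (G : ι → Type) [∀ i, Group (G i)] [∀ i, Finite (G i)] (g : (i : ι) → ℕ → Set (G i))
      (s₀ : ℕ) (M : ℕ → Finset ι),
      (∀ s, s₀ ≤ s → ((M s).card : ℝ) ≤ Real.exp (A * ((2 : ℝ) ^ s) ^ (1 / a))) →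
      (∀ s, s₀ ≤ s → ∀ i ∈ M s, (Nat.card (G i) : ℝ) ≤ Real.exp (A * ((2 : ℝ) ^ s) ^ (1 / a))) →
      (∀ s, s₀ ≤ s → ∀ i ∈ M s, ∀ H : Subgroup (G i), H ≠ ⊤ →
        ((PB (2 ^ s) (2 ^ (s + 2))).card : ℝ) ≤ A * ((2 : ℝ) ^ s) ^ (1 / a) *
          ({u | u ∈ PB (2 ^ s) (2 ^ (s + 2)) ∧ ∃ c ∈ g i u, c ∉ H} : Set ℕ).ncard) →
      ∃ B : Set ℕ, (∀ b ∈ B, b.Prime) ∧
        (∀ y : ℕ, 1 ≤ y → ({b | b ∈ B ∧ b ≤ y}.ncard : ℝ) ≤ C * (y : ℝ) ^ (2 / a)) ∧
        ∀ s, s₀ ≤ s → ∀ i ∈ M s,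
          Subgroup.closure {c | ∃ u ∈ B, 2 ^ s < u ∧ u ≤ 2 ^ (s + 2) ∧ c ∈ g i u} = ⊤ := by
  classical
  have ha0 : 0 < a := by linarith
  obtain ⟨ρ, hρ⟩ : ∃ ρ : ℝ, ρ = (2 : ℝ) ^ (1 / a) := ⟨_, rfl⟩
  have hρ1 : 1 < ρ := by
    rw [hρ]
    exact Real.one_lt_rpow (by norm_num) (by positivity)
  have hρpow : ∀ s : ℕ, ρ ^ s = ((2 : ℝ) ^ s) ^ (1 / a) := by
    intro s
    rw [hρ, ← Real.rpow_natCast, ← Real.rpow_natCast, ← Real.rpow_mul (by norm_num), ← Real.rpow_mul (by norm_num),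
      mul_comm]
  have hρ2 : 1 < ρ ^ 2 := by nlinarith
  refine ⟨5 * A ^ 2 * ρ ^ 2 / (ρ ^ 2 - 1), by
    apply div_pos (by positivity)
    linarith, ?_⟩
  intro ι G _ _ g s₀ M hM hG hH
  obtain ⟨n, hn⟩ : ∃ n : ℕ → ℕ, ∀ s, n s = ⌊4 * A ^ 2 * ρ ^ (2 * s)⌋₊ + 1 := ⟨_, fun _ => rfl⟩
  have hnle : ∀ s, (n s : ℝ) ≤ 5 * A ^ 2 * (ρ ^ 2) ^ s := by
    intro s
    rw [hn s]
    push_cast
    have h1 := Nat.floor_le (show (0 : ℝ) ≤ 4 * A ^ 2 * ρ ^ (2 * s) by positivity)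
    have h2 : (1 : ℝ) ≤ A ^ 2 * ρ ^ (2 * s) := by
      have h3 : (1 : ℝ) ≤ A ^ 2 := one_le_pow₀ hA
      have h4 : (1 : ℝ) ≤ ρ ^ (2 * s) := one_le_pow₀ hρ1.le
      nlinarith
    rw [← pow_mul]
    linarith
  have hngt : ∀ s, 4 * A ^ 2 * ρ ^ (2 * s) < n s := by
    intro s
    rw [hn s]
    push_cast
    exact Nat.lt_floor_add_one _
  have sel : ∀ s, ∃ S : Finset ℕ, S ⊆ PB (2 ^ s) (2 ^ (s + 2)) ∧ S.card ≤ n s ∧
      (s₀ ≤ s → ∀ i ∈ M s, gen (g i) S = ⊤) := by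
    intro s
    by_cases hs : s₀ ≤ s
    swap
    · exact ⟨∅, by simp, by simp, fun h => absurd h hs⟩
    have hρs : (1 : ℝ) ≤ ρ ^ s := one_le_pow₀ hρ1.le
    have hAρ : 1 ≤ A * ρ ^ s := by nlinarith
    have hAρ0 : 0 < A * ρ ^ s := by linarith
    obtain ⟨S, h1, h2, h3⟩ := generate (PB (2 ^ s) (2 ^ (s + 2))) (PB_nonempty s) (M s) G g (1 / (A * ρ ^ s))
      (by positivity) (by rw [div_le_one hAρ0]; exact hAρ) (by
        intro i hi H hHt
        have h4 := hH s hs i hi H hHt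
        rw [← hρpow] at h4
        rw [one_div, inv_mul_le_iff₀ hAρ0]
        exact h4) (n s) (by
        have e1 : ∑ i ∈ M s, (Nat.card (G i) : ℝ) ≤ Real.exp (2 * (A * ρ ^ s)) := by
          calc ∑ i ∈ M s, (Nat.card (G i) : ℝ) ≤ ∑ _i ∈ M s, Real.exp (A * ρ ^ s) := by
                apply sum_le_sum
                intro i hi
                rw [hρpow]
                exact hG s hs i hi
            _ = (M s).card * Real.exp (A * ρ ^ s) := by rw [sum_const, nsmul_eq_mul]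
            _ ≤ Real.exp (A * ρ ^ s) * Real.exp (A * ρ ^ s) := by
                apply mul_le_mul_of_nonneg_right _ (Real.exp_pos _).le
                rw [hρpow]
                exact hM s hs
            _ = _ := by
                rw [← Real.exp_add]
                congr 1
                ring
        have e2 : 2 * (A * ρ ^ s) < 1 / (A * ρ ^ s) / 2 * n s := by
          rw [div_div, one_div, inv_mul_eq_div, lt_div_iff₀ (by positivity)]
          calc 2 * (A * ρ ^ s) * (A * ρ ^ s * 2) = 4 * A ^ 2 * ρ ^ (2 * s) := by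
                rw [two_mul s, pow_add]
                ring
            _ < n s := hngt s
        calc (∑ i ∈ M s, (Nat.card (G i) : ℝ)) * Real.exp (-(1 / (A * ρ ^ s) / 2 * n s))
            ≤ Real.exp (2 * (A * ρ ^ s)) * Real.exp (-(1 / (A * ρ ^ s) / 2 * n s)) := by
              apply mul_le_mul_of_nonneg_right e1 (Real.exp_pos _).le
          _ = Real.exp (2 * (A * ρ ^ s) - 1 / (A * ρ ^ s) / 2 * n s) := by
              rw [← Real.exp_add]
              congr 1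
          _ < 1 := by
              rw [Real.exp_lt_one_iff]
              linarith)
    exact ⟨S, h1, h2, fun _ => h3⟩
  choose S hS1 hS2 hS3 using sel
  refine ⟨{b | ∃ s, b ∈ S s}, ?_, ?_, ?_⟩
  · rintro b ⟨s, hb⟩
    have := hS1 s hb
    rw [mem_PB] at this
    exact this.2
  · intro y hy
    have hsub : {b | b ∈ {b | ∃ s, b ∈ S s} ∧ b ≤ y} ⊆
        ((range (Nat.log 2 y + 1)).biUnion S : Finset ℕ) := by
      rintro b ⟨⟨s, hb⟩, hby⟩
      rw [mem_coe, mem_biUnion]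
      refine ⟨s, ?_, hb⟩
      have h1 := hS1 s hb
      rw [mem_PB] at h1
      rw [mem_range]
      have h2 : 2 ^ s ≤ y := by omega
      have h3 := Nat.le_log_of_pow_le (by norm_num) h2
      omega
    have h1 : {b | b ∈ {b | ∃ s, b ∈ S s} ∧ b ≤ y}.ncard ≤ ((range (Nat.log 2 y + 1)).biUnion S).card := by
      rw [← Set.ncard_coe_finset]
      exact Set.ncard_le_ncard hsub (Finset.finite_toSet _)
    have h2 : (((range (Nat.log 2 y + 1)).biUnion S).card : ℝ) ≤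
        ∑ s ∈ range (Nat.log 2 y + 1), 5 * A ^ 2 * (ρ ^ 2) ^ s := by
      have h3 : ((range (Nat.log 2 y + 1)).biUnion S).card ≤ ∑ s ∈ range (Nat.log 2 y + 1), (S s).card :=
        card_biUnion_le
      calc (((range (Nat.log 2 y + 1)).biUnion S).card : ℝ) ≤
            ∑ s ∈ range (Nat.log 2 y + 1), ((S s).card : ℝ) := by exact_mod_cast h3
        _ ≤ _ := by
            apply sum_le_sum
            intro s _
            have : ((S s).card : ℝ) ≤ n s := by exact_mod_cast hS2 s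
            exact this.trans (hnle s)
    have h3 : ∑ s ∈ range (Nat.log 2 y + 1), 5 * A ^ 2 * (ρ ^ 2) ^ s ≤
        5 * A ^ 2 * ((ρ ^ 2) ^ (Nat.log 2 y + 1) / (ρ ^ 2 - 1)) := by
      rw [← mul_sum, geom_sum_eq hρ2.ne']
      apply mul_le_mul_of_nonneg_left _ (by positivity)
      apply div_le_div_of_nonneg_right (by linarith) (by linarith)
    have h4 : (ρ ^ 2) ^ (Nat.log 2 y) ≤ (y : ℝ) ^ (2 / a) := by
      rw [← pow_mul, mul_comm, pow_mul, hρpow, ← Real.rpow_natCast, ← Real.rpow_mul (by positivity)]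
      have e1 : 1 / a * ((2 : ℕ) : ℝ) = 2 / a := by
        push_cast
        ring
      rw [e1]
      apply Real.rpow_le_rpow (by positivity) _ (by positivity)
      have := Nat.pow_log_le_self 2 (show y ≠ 0 by omega)
      exact_mod_cast this
    calc (({b | b ∈ {b | ∃ s, b ∈ S s} ∧ b ≤ y}.ncard : ℕ) : ℝ) ≤ _ := by exact_mod_cast h1
      _ ≤ _ := h2
      _ ≤ _ := h3
      _ = 5 * A ^ 2 * ρ ^ 2 / (ρ ^ 2 - 1) * (ρ ^ 2) ^ (Nat.log 2 y) := by
          rw [pow_succ]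
          ring
      _ ≤ 5 * A ^ 2 * ρ ^ 2 / (ρ ^ 2 - 1) * (y : ℝ) ^ (2 / a) := by
          apply mul_le_mul_of_nonneg_left h4
          apply div_nonneg (by positivity)
          linarith
  · intro s hs i hi
    have h1 := hS3 s hs i hi
    rw [eq_top_iff, ← h1]
    unfold gen
    apply Subgroup.closure_mono
    intro c hc
    simp only [Set.mem_iUnion] at hc
    obtain ⟨u, hu, hc⟩ := hc
    have h2 := hS1 s hu
    rw [mem_PB] at h2
    exact ⟨u, ⟨s, hu⟩, h2.1.1, h2.1.2, hc⟩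

end Pool.Agent.H563.TW
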