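import Pool.Agent.H563.TW.Thin
import Pool.Graph.R_seed8.H386R2.Artin.BadCount
import Pool.Graph.R_seed8.H38R2.CG.NB

/-!
# Few primes outside a proper subgroup of the units modulo `p`: rare
-/

set_option autoImplicit false

namespace Pool.Agent.H563.TW

open Finset Filter
open scoped Classical Nat

/-- the unit modulo `p` given by the number `q` -/
def res (p q : ℕ) : Set (ZMod p)ˣ := {u | (u : ZMod p) = (q : ZMod p)}

theorem exists_char {p : ℕ} [Fact p.Prime] (H : Subgroup (ZMod p)ˣ) (h : H ≠ ⊤) :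
    ∃ χ : DirichletCharacter ℂ p, χ ≠ 1 ∧ ∀ u ∈ H, χ (u : ZMod p) = 1 := by
  obtain ⟨u, hu⟩ : ∃ u : (ZMod p)ˣ, u ∉ H := by
    by_contra hcon
    push Not at hcon
    exact h ((Subgroup.eq_top_iff' _).2 hcon)
  have hu1 : (QuotientGroup.mk u : (ZMod p)ˣ ⧸ H) ≠ 1 := by
    intro h1
    exact hu ((QuotientGroup.eq_one_iff u).1 h1)
  obtain ⟨psi, hpsi⟩ := CommGroup.exists_apply_ne_one_of_hasEnoughRootsOfUnity
    ((ZMod p)ˣ ⧸ H) ℂ hu1
  refine ⟨MulChar.ofUnitHom (psi.comp (QuotientGroup.mk' H)), ?_, ?_⟩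
  · intro h1
    apply hpsi
    have h2 := congrArg (fun χ : MulChar (ZMod p) ℂ => χ (u : ZMod p)) h1
    simp only [MulChar.ofUnitHom_coe, MulChar.one_apply_coe] at h2
    exact Units.ext h2
  · intro v hv
    rw [MulChar.ofUnitHom_coe]
    have h1 : (QuotientGroup.mk' H) v = 1 := (QuotientGroup.eq_one_iff _).2 hv
    rw [MonoidHom.comp_apply, h1, map_one]
    rfl

/-- if the character sums are small then a positive proportion of the primes is outside every proper subgroup -/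
theorem outside_unit (E : Finset ℕ) (hE : 8 ≤ E.card) (hEp : ∀ q ∈ E, q.Prime) (p : ℕ) (hp : p.Prime)
    (hG : Pool.Agent.H386R2.Artin.Good E ((E.card : ℝ) / 4) p) (H : Subgroup (ZMod p)ˣ) (hH : H ≠ ⊤) :
    (E.card : ℝ) ≤ 4 * ({q | q ∈ E ∧ ∃ c ∈ res p q, c ∉ H} : Set ℕ).ncard := by
  have : Fact p.Prime := ⟨hp⟩
  obtain ⟨χ, hχ, hχH⟩ := exists_char H hH
  have h1 := hG χ hχ
  obtain ⟨W, hW⟩ : ∃ W : Finset ℕ, W = E.filter (fun q => ∃ c ∈ res p q, c ∉ H) := ⟨_, rfl⟩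
  have hWc : ({q | q ∈ E ∧ ∃ c ∈ res p q, c ∉ H} : Set ℕ).ncard = W.card := by
    rw [← Set.ncard_coe_finset, hW]
    congr 1
    ext q
    simp
  rw [hWc]
  obtain ⟨V, hV⟩ : ∃ V : Finset ℕ, V = W ∪ E.filter (fun q => q = p) := ⟨_, rfl⟩
  have hVE : V ⊆ E := by
    rw [hV, hW]
    exact union_subset (filter_subset _ _) (filter_subset _ _)
  have hVc : V.card ≤ W.card + 1 := by
    rw [hV]
    refine (card_union_le _ _).trans ?_
    have : (E.filter (fun q => q = p)).card ≤ 1 := by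
      rw [card_le_one]
      intro x hx y hy
      rw [(mem_filter.1 hx).2, (mem_filter.1 hy).2]
    omega
  have hin : ∀ q ∈ E \ V, χ (q : ZMod p) = 1 := by
    intro q hq
    rw [Finset.mem_sdiff, hV, mem_union, not_or] at hq
    obtain ⟨hqE, hqW, hqp⟩ := hq
    have hne : ((q : ℕ) : ZMod p) ≠ 0 := by
      intro h0
      rw [ZMod.natCast_eq_zero_iff] at h0
      rcases (Nat.dvd_prime (hEp q hqE)).1 h0 with h | h
      · exact hp.one_lt.ne' h
      · exact hqp (mem_filter.2 ⟨hqE, h.symm⟩)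
    have hu : (Units.mk0 (q : ZMod p) hne : (ZMod p)ˣ) ∈ H := by
      by_contra hcon
      apply hqW
      rw [hW, mem_filter]
      exact ⟨hqE, _, rfl, hcon⟩
    exact hχH _ hu
  have hsum : ∑ q ∈ E, χ (q : ZMod p) = ((E \ V).card : ℂ) + ∑ q ∈ V, χ (q : ZMod p) := by
    rw [← sum_sdiff hVE, sum_congr rfl hin, sum_const, nsmul_eq_mul, mul_one]
  have hV1 : ‖∑ q ∈ V, χ (q : ZMod p)‖ ≤ V.card := by
    refine (norm_sum_le _ _).trans ?_
    calc ∑ q ∈ V, ‖χ (q : ZMod p)‖ ≤ ∑ _q ∈ V, (1 : ℝ) := sum_le_sum fun q _ => DirichletCharacter.norm_le_one χ _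
      _ = V.card := by rw [sum_const, nsmul_eq_mul, mul_one]
  have h2 : ((E \ V).card : ℝ) ≤ (E.card : ℝ) / 4 + V.card := by
    have h3 : ((E \ V).card : ℂ) = ∑ q ∈ E, χ (q : ZMod p) - ∑ q ∈ V, χ (q : ZMod p) := by
      rw [hsum]
      ring
    calc ((E \ V).card : ℝ) = ‖((E \ V).card : ℂ)‖ := by rw [Complex.norm_natCast]
      _ ≤ ‖∑ q ∈ E, χ (q : ZMod p)‖ + ‖∑ q ∈ V, χ (q : ZMod p)‖ := by
          rw [h3]
          exact norm_sub_le _ _
      _ ≤ _ := add_le_add h1 hV1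
  have h4 : ((E \ V).card : ℝ) = E.card - V.card := by
    rw [card_sdiff_of_subset hVE, Nat.cast_sub (card_le_card hVE)]
  have h5 : (V.card : ℝ) ≤ W.card + 1 := by exact_mod_cast hVc
  have h6 : (8 : ℝ) ≤ E.card := by exact_mod_cast hE
  linarith

/-- a window has many primes -/
theorem window_low : ∃ s₀ : ℕ, 2 ≤ s₀ ∧ ∀ s, s₀ ≤ s → (2 : ℝ) ^ s / s ≤ ((PB (2 ^ s) (2 ^ (s + 1))).card : ℝ) ∧
    8 ≤ (PB (2 ^ s) (2 ^ (s + 1))).card := by
  obtain ⟨-, y0, hy0⟩ := Pool.Agent.H38R2.CG.T_NB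
  refine ⟨max 6 y0, by omega, fun s hs => ?_⟩
  have hs4 : 6 ≤ s := (le_max_left _ _).trans hs
  have h1 := (hy0 (2 ^ s) (by
    have : s < 2 ^ s := Nat.lt_two_pow_self
    have := (le_max_right 6 y0).trans hs
    omega)).1
  have h2 : (Pool.Agent.H38R2.CG.PP (2 ^ s)) = PB (2 ^ s) (2 ^ (s + 1)) := by
    unfold Pool.Agent.H38R2.CG.PP PB
    rw [pow_succ, mul_comm]
  rw [h2] at h1
  have hs0 : (6 : ℝ) ≤ s := by exact_mod_cast hs4
  have h3 : (2 : ℝ) ^ s / s ≤ ((PB (2 ^ s) (2 ^ (s + 1))).card : ℝ) := by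
    refine le_trans ?_ h1
    push_cast
    rw [Real.log_pow]
    have hl := Real.log_two_lt_d9
    have hl0 : 0 < Real.log 2 := Real.log_pos (by norm_num)
    have hp : (0 : ℝ) < 2 ^ s := by positivity
    rw [div_le_div_iff₀ (by positivity) (by positivity)]
    have : (s : ℝ) * Real.log 2 ≤ 9 / 10 * s := by nlinarith
    nlinarith
  refine ⟨h3, ?_⟩
  have h4 : (8 : ℝ) ≤ (2 : ℝ) ^ s / s := by
    have h5 : ∀ s : ℕ, 6 ≤ s → 8 * s ≤ 2 ^ s := by
      intro s hs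
      induction s, hs using Nat.le_induction with
      | base => norm_num
      | succ s hs ih =>
        rw [pow_succ]
        omega
    rw [le_div_iff₀ (by linarith)]
    exact_mod_cast h5 s hs4
  exact_mod_cast h4.trans h3

end Pool.Agent.H563.TW
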