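import Pool.Agent.H563.TW.Unit

/-!
# The number of the primes with large character sums at their level
-/

set_option autoImplicit false

namespace Pool.Agent.H563.TW

open Finset Filter Topology
open scoped Classical Nat

/-- the primes of the level `s` -/
def EE (s : ℕ) : Finset ℕ := PB (2 ^ s) (2 ^ (s + 1))

/-- the character sums of the level `s` modulo `p` are small -/
def GoodAt (s p : ℕ) : Prop := Pool.Agent.H386R2.Artin.Good (EE s) (((EE s).card : ℝ) / 4) p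

/-- the level of `p` -/
noncomputable def lev (A : ℝ) (p : ℕ) : ℕ := Nat.log 2 ⌊(Real.log p) ^ A⌋₊

theorem one (x s : ℕ) (X : ℝ) (hX : X = Real.log x) (hx : 2 ≤ x) (hs1 : 1 ≤ s) (hsX : (s : ℝ) ≤ X)
    (hlow : (2 : ℝ) ^ s / s ≤ ((EE s).card : ℝ)) :
    ((({p ∈ Pool.Agent.H386R2.Artin.PP x | ¬ GoodAt s p} : Finset ℕ).card : ℕ) : ℝ) ≤
      Real.exp (Real.log 12 + (2 * X / ((s + 1) * Real.log 2) + 1) * Real.log (128 * X)) := by
  have hX0 : 0 < X := by
    have : (1 : ℝ) ≤ s := by exact_mod_cast hs1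
    linarith
  have hs0 : (1 : ℝ) ≤ s := by exact_mod_cast hs1
  have hX1 : 1 ≤ X := by linarith
  have hx0 : (0 : ℝ) < x := by
    have : 0 < x := by omega
    exact_mod_cast this
  have hl2 : 0 < Real.log 2 := Real.log_pos (by norm_num)
  obtain ⟨Y, hY⟩ : ∃ Y : ℝ, Y = (s + 1) * Real.log 2 := ⟨_, rfl⟩
  have hY0 : 0 < Y := by rw [hY]; positivity
  rw [← hY]
  obtain ⟨r, hr⟩ : ∃ r : ℕ, r = ⌈2 * X / Y⌉₊ := ⟨_, rfl⟩
  have hr1 : 2 * X / Y ≤ r := by rw [hr]; exact Nat.le_ceil _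
  have hr2 : (r : ℝ) ≤ 2 * X / Y + 1 := by rw [hr]; exact (Nat.ceil_lt_add_one (by positivity)).le
  obtain ⟨e, he⟩ : ∃ e : ℝ, e = ((EE s).card : ℝ) := ⟨_, rfl⟩
  rw [← he] at hlow
  have he0 : 0 < e := lt_of_lt_of_le (by positivity) hlow
  have hpow : x ^ 2 ≤ (2 ^ (s + 1)) ^ r := by
    have h1 : Real.log ((x : ℝ) ^ 2) ≤ Real.log (((2 : ℝ) ^ (s + 1)) ^ r) := by
      rw [Real.log_pow, Real.log_pow, Real.log_pow, ← hX]
      rw [div_le_iff₀ hY0] at hr1
      push_cast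
      rw [hY] at hr1
      exact hr1
    have h2 := (Real.log_le_log_iff (by positivity) (by positivity)).1 h1
    exact_mod_cast h2
  have hB := Pool.Agent.H386R2.Artin.badCount (EE s) (2 ^ (s + 1)) x r (e / 4) (by
    intro q hq
    unfold EE at hq
    rw [mem_PB] at hq
    exact ⟨hq.2, hq.1.2⟩) (by positivity) hpow
  rw [← he] at hB
  obtain ⟨T, hT⟩ : ∃ T : ℝ, T = ((({p ∈ Pool.Agent.H386R2.Artin.PP x | ¬ GoodAt s p} : Finset ℕ).card : ℕ) : ℝ) :=
    ⟨_, rfl⟩
  have hT' : T = ((#{p ∈ Pool.Agent.H386R2.Artin.PP x | ¬ Pool.Agent.H386R2.Artin.Good (EE s) (e / 4) p} : ℕ) : ℝ) := by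
    rw [hT, he]
    rfl
  rw [← hT'] at hB
  rw [← hT]
  push_cast at hB
  have hfac : (r ! : ℝ) ≤ (r : ℝ) ^ r := by exact_mod_cast Nat.factorial_le_pow r
  have hkey : (2 : ℝ) ^ (s + 1) * r * e ≤ (128 * X) * (e / 4) ^ 2 := by
    have h1 : (2 : ℝ) ^ (s + 1) ≤ 2 * s * e := by
      rw [div_le_iff₀ (by linarith)] at hlow
      rw [pow_succ]
      linarith
    have h2 : (s : ℝ) * r ≤ 4 * X := by
      have h3 : (s : ℝ) * (2 * X / Y) ≤ 3 * X := by
        rw [hY, mul_div_assoc', div_le_iff₀ (by positivity)]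
        have hl := Real.log_two_gt_d9
        have h5 : 2 * (s : ℝ) ≤ 3 * ((s + 1) * Real.log 2) := by nlinarith
        calc (s : ℝ) * (2 * X) = (2 * s) * X := by ring
          _ ≤ (3 * ((s + 1) * Real.log 2)) * X := mul_le_mul_of_nonneg_right h5 hX0.le
          _ = _ := by ring
      calc (s : ℝ) * r ≤ s * (2 * X / Y + 1) := mul_le_mul_of_nonneg_left hr2 (by linarith)
        _ = s * (2 * X / Y) + s := by ring
        _ ≤ 4 * X := by linarith
    calc (2 : ℝ) ^ (s + 1) * r * e ≤ (2 * s * e) * r * e := by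
          apply mul_le_mul_of_nonneg_right _ he0.le
          apply mul_le_mul_of_nonneg_right h1 (by positivity)
      _ = 2 * (s * r) * e ^ 2 := by ring
      _ ≤ 2 * (4 * X) * e ^ 2 := by
          apply mul_le_mul_of_nonneg_right _ (by positivity)
          linarith
      _ = _ := by ring
  have hT2 : T * ((e / 4) ^ 2) ^ r ≤ 12 * (128 * X) ^ r * ((e / 4) ^ 2) ^ r := by
    calc T * ((e / 4) ^ 2) ^ r = T * (e / 4) ^ (2 * r) := by rw [← pow_mul]
      _ ≤ 12 * ((2 : ℝ) ^ (s + 1)) ^ r * (r ! : ℝ) * e ^ r := hB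
      _ ≤ 12 * ((2 : ℝ) ^ (s + 1)) ^ r * (r : ℝ) ^ r * e ^ r := by
          apply mul_le_mul_of_nonneg_right _ (by positivity)
          apply mul_le_mul_of_nonneg_left hfac (by positivity)
      _ = 12 * ((2 : ℝ) ^ (s + 1) * r * e) ^ r := by rw [mul_pow, mul_pow]; ring
      _ ≤ 12 * ((128 * X) * (e / 4) ^ 2) ^ r := by
          apply mul_le_mul_of_nonneg_left _ (by norm_num)
          exact pow_le_pow_left₀ (by positivity) hkey r
      _ = _ := by rw [mul_pow]; ring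
  have hT3 : T ≤ 12 * (128 * X) ^ r := le_of_mul_le_mul_right hT2 (by positivity)
  refine hT3.trans ?_
  have h12 : (12 : ℝ) * (128 * X) ^ r = Real.exp (Real.log 12 + r * Real.log (128 * X)) := by
    rw [Real.exp_add, Real.exp_log (by norm_num), ← Real.log_pow, Real.exp_log (by positivity)]
  rw [h12, Real.exp_le_exp]
  have hl : 0 ≤ Real.log (128 * X) := Real.log_nonneg (by linarith)
  have := mul_le_mul_of_nonneg_right hr2 hl
  linarith

theorem few (A : ℝ) (hA : 0 < A) (s₀ : ℕ) (ε : ℝ) (hε : 0 < ε) : ∃ x₀ : ℕ, ∀ x : ℕ, x₀ ≤ x →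
    ((({p ∈ Icc 1 x | p.Prime ∧ ¬ (s₀ ≤ lev A p ∧ GoodAt (lev A p) p)} : Finset ℕ).card : ℕ) : ℝ) ≤
      (x : ℝ) ^ (2 / A + ε) := by
  obtain ⟨s₁, hs₁, hlow⟩ := window_low
  have hl2 : 0 < Real.log 2 := Real.log_pos (by norm_num)
  obtain ⟨η, hη⟩ : ∃ η : ℝ, η = ε * A / 8 := ⟨_, rfl⟩
  have hη0 : 0 < η := by rw [hη]; positivity
  have hx : Tendsto (fun x : ℕ => Real.log (x : ℝ)) atTop atTop :=
    Real.tendsto_log_atTop.comp tendsto_natCast_atTop_atTop
  have hlin : ∀ c d : ℝ, Tendsto (fun t : ℝ => (c + d * Real.log t) / t) atTop (𝓝 0) := by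
    intro c d
    have h3 : Tendsto (fun t : ℝ => Real.log t / t) atTop (𝓝 0) := by
      simpa using Real.isLittleO_log_id_atTop.tendsto_div_nhds_zero
    have h4 : Tendsto (fun t : ℝ => c / t) atTop (𝓝 0) :=
      tendsto_const_nhds.div_atTop tendsto_id
    have h5 := h4.add (h3.const_mul d)
    simp only [mul_zero, add_zero] at h5
    refine h5.congr fun t => ?_
    ring
  -- eventual conditions in `X`
  have evX : ∀ᶠ X : ℝ in atTop, 2 ≤ X ∧ 1 ≤ Real.log X ∧
      (Real.log 128 - (1 + η) * Real.log (2 / A) ≤ η * Real.log X) ∧ 1 ≤ Real.log (2 / A * X) ∧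
      ((2 : ℝ) ^ (max s₀ s₁ + 1) ≤ (2 / A * X) ^ A) ∧
      Real.log 12 + (Real.log 128 + Real.log X) ≤ ε / 4 * X ∧
      Real.log 2 + (A / Real.log 2 * Real.log X + 1) ≤ ε / 4 * X ∧
      A / Real.log 2 * Real.log X ≤ X := by
    have h1 := Real.tendsto_log_atTop.eventually_ge_atTop
      (max 1 ((Real.log 128 - (1 + η) * Real.log (2 / A)) / η))
    have h2 : Tendsto (fun X : ℝ => 2 / A * X) atTop atTop :=
      Tendsto.const_mul_atTop (by positivity) tendsto_id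
    have h3 := (Real.tendsto_log_atTop.comp h2).eventually_ge_atTop 1
    have h4 := ((tendsto_rpow_atTop hA).comp h2).eventually_ge_atTop ((2 : ℝ) ^ (max s₀ s₁ + 1))
    have h5 := (hlin (Real.log 12 + Real.log 128) 1).eventually (gt_mem_nhds (show (0 : ℝ) < ε / 4 by positivity))
    have h6 := (hlin (Real.log 2 + 1) (A / Real.log 2)).eventually
      (gt_mem_nhds (show (0 : ℝ) < ε / 4 by positivity))
    have h7 := (hlin 0 (A / Real.log 2)).eventually (gt_mem_nhds (show (0 : ℝ) < 1 by norm_num))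
    filter_upwards [eventually_ge_atTop 2, h1, h3, h4, h5, h6, h7] with X g0 g1 g3 g4 g5 g6 g7
    have hX0 : 0 < X := by linarith
    rw [div_lt_iff₀ hX0] at g5 g6 g7
    refine ⟨g0, (le_max_left _ _).trans g1, ?_, g3, g4, by linarith, by linarith, by linarith⟩
    have := (le_max_right _ _).trans g1
    rw [div_le_iff₀ hη0] at this
    linarith
  have h4 : Tendsto (fun x : ℕ => (x : ℝ) ^ (ε / 4)) atTop atTop :=
    (tendsto_rpow_atTop (by positivity)).comp tendsto_natCast_atTop_atTop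
  obtain ⟨x₀, hx₀⟩ := eventually_atTop.1 ((hx.eventually evX).and (h4.eventually_ge_atTop 2))
  refine ⟨max x₀ 3, fun x hxx => ?_⟩
  obtain ⟨⟨hX2, hlX, hc1, hΛ, hc2, hc3, hc4, hc5⟩, hx4⟩ := hx₀ x ((le_max_left _ _).trans hxx)
  have hx3 : 3 ≤ x := (le_max_right _ _).trans hxx
  have hx3r : (3 : ℝ) ≤ x := by exact_mod_cast hx3
  obtain ⟨X, hX⟩ : ∃ X : ℝ, X = Real.log x := ⟨_, rfl⟩
  rw [← hX] at hX2 hlX hc1 hΛ hc2 hc3 hc4 hc5
  have hX0 : 0 < X := by linarith
  obtain ⟨L, hL⟩ : ∃ L : Finset ℕ, L = (range (⌊A / Real.log 2 * Real.log X⌋₊ + 1)).filter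
    (fun s => (2 / A * X) ^ A < (2 : ℝ) ^ (s + 1)) := ⟨_, rfl⟩
  have hLs : ∀ s ∈ L, max s₀ s₁ ≤ s ∧ (s : ℝ) ≤ A / Real.log 2 * Real.log X ∧
      (2 / A * X) ^ A < (2 : ℝ) ^ (s + 1) := by
    intro s hs
    rw [hL, mem_filter, mem_range] at hs
    obtain ⟨hs1, hs2⟩ := hs
    refine ⟨?_, ?_, hs2⟩
    · have h5 : (2 : ℝ) ^ (max s₀ s₁ + 1) < (2 : ℝ) ^ (s + 1) := hc2.trans_lt hs2
      have h6 := (pow_lt_pow_iff_right₀ (show (1 : ℝ) < 2 by norm_num)).1 h5
      omega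
    · have h5 : s ≤ ⌊A / Real.log 2 * Real.log X⌋₊ := by omega
      exact (Nat.le_floor_iff (by positivity)).1 h5
  have hsub : ({p ∈ Icc 1 x | p.Prime ∧ ¬ (s₀ ≤ lev A p ∧ GoodAt (lev A p) p)} : Finset ℕ) ⊆
      (Icc 1 ⌊(x : ℝ) ^ (2 / A)⌋₊) ∪
        L.biUnion (fun s => {p ∈ Pool.Agent.H386R2.Artin.PP x | ¬ GoodAt s p}) := by
    intro p hp
    rw [mem_filter, mem_Icc] at hp
    obtain ⟨⟨hp1, hpx⟩, hpp, hpb⟩ := hp
    rw [mem_union]
    by_cases hsm : p ≤ ⌊(x : ℝ) ^ (2 / A)⌋₊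
    · exact Or.inl (mem_Icc.2 ⟨hp1, hsm⟩)
    right
    have hp0 : (0 : ℝ) < p := by exact_mod_cast hp1
    have hbig : (x : ℝ) ^ (2 / A) < p := by
      rw [not_le] at hsm
      exact (Nat.floor_lt (by positivity)).1 hsm
    have hlogp : 2 / A * X < Real.log p := by
      have := Real.log_lt_log (by positivity) hbig
      rw [Real.log_rpow (by linarith), ← hX] at this
      exact this
    have hlogp2 : Real.log p ≤ X := by
      rw [hX]
      exact Real.log_le_log hp0 (by exact_mod_cast hpx)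
    have hpos : 0 < 2 / A * X := by positivity
    have hlp0 : 0 < Real.log p := hpos.trans hlogp
    obtain ⟨N, hN⟩ : ∃ N : ℕ, N = ⌊(Real.log p) ^ A⌋₊ := ⟨_, rfl⟩
    have hN1 : (2 / A * X) ^ A < (N : ℝ) + 1 := by
      rw [hN]
      refine lt_trans ?_ (Nat.lt_floor_add_one _)
      exact Real.rpow_lt_rpow hpos.le hlogp hA
    have hN2 : (N : ℝ) ≤ X ^ A := by
      rw [hN]
      refine (Nat.floor_le (by positivity)).trans ?_
      exact Real.rpow_le_rpow hlp0.le hlogp2 hA.le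
    have hN0 : N ≠ 0 := by
      intro h0
      rw [h0] at hN1
      have h5 : (2 : ℝ) ^ 1 ≤ 2 ^ (max s₀ s₁ + 1) := pow_le_pow_right₀ (by norm_num) (by omega)
      have h6 := h5.trans hc2
      push_cast at hN1
      linarith
    have hlev : lev A p = Nat.log 2 N := by
      unfold lev
      rw [hN]
    have h5 : (2 : ℝ) ^ (lev A p) ≤ N := by
      rw [hlev]
      exact_mod_cast Nat.pow_log_le_self 2 hN0
    have h6 : (N : ℝ) + 1 ≤ (2 : ℝ) ^ (lev A p + 1) := by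
      rw [hlev]
      exact_mod_cast Nat.lt_pow_succ_log_self (by norm_num) N
    have hmemL : lev A p ∈ L := by
      rw [hL, mem_filter, mem_range]
      refine ⟨?_, hN1.trans_le h6⟩
      rw [Nat.lt_succ_iff]
      apply Nat.le_floor
      have h7 : (lev A p : ℝ) * Real.log 2 ≤ A * Real.log X := by
        have h8 := Real.log_le_log (by positivity) (h5.trans hN2)
        rw [Real.log_pow, Real.log_rpow hX0] at h8
        exact h8
      rw [div_mul_eq_mul_div, le_div_iff₀ hl2]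
      exact h7
    rw [mem_biUnion]
    refine ⟨lev A p, hmemL, ?_⟩
    rw [mem_filter]
    refine ⟨?_, fun hg => hpb ⟨(le_max_left _ _).trans (hLs _ hmemL).1, hg⟩⟩
    unfold Pool.Agent.H386R2.Artin.PP
    rw [mem_filter, mem_range]
    exact ⟨by omega, hpp⟩
  have hone : ∀ s ∈ L, ((({p ∈ Pool.Agent.H386R2.Artin.PP x | ¬ GoodAt s p} : Finset ℕ).card : ℕ) : ℝ) ≤
      (x : ℝ) ^ (2 / A + ε / 2) := by
    intro s hs
    obtain ⟨hs1, hs2, hs3⟩ := hLs s hs
    have hs1' : s₁ ≤ s := (le_max_right _ _).trans hs1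
    refine (one x s X hX (by omega) (by omega) (hs2.trans hc5) (hlow s hs1').1).trans ?_
    rw [Real.rpow_def_of_pos (by linarith), Real.exp_le_exp, ← hX]
    obtain ⟨Λ, hΛd⟩ : ∃ Λ : ℝ, Λ = Real.log (2 / A * X) := ⟨_, rfl⟩
    rw [← hΛd] at hΛ
    have hΛ0 : 0 < Λ := by linarith
    have hY : A * Λ ≤ (s + 1) * Real.log 2 := by
      have h5 := Real.log_le_log (by positivity) hs3.le
      rw [Real.log_rpow (by positivity), Real.log_pow, ← hΛd] at h5
      push_cast at h5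
      exact h5
    have hΛX : Λ = Real.log (2 / A) + Real.log X := by
      rw [hΛd, Real.log_mul (by positivity) hX0.ne']
    have hℓ : Real.log (128 * X) = Real.log 128 + Real.log X := Real.log_mul (by norm_num) hX0.ne'
    have h6 : Real.log (128 * X) ≤ (1 + η) * Λ := by
      rw [hℓ, hΛX]
      linarith
    have hℓ0 : 0 ≤ Real.log (128 * X) := Real.log_nonneg (by linarith)
    have h7 : 2 * X / ((s + 1) * Real.log 2) ≤ 2 * X / (A * Λ) := by
      apply div_le_div_of_nonneg_left (by positivity) (by positivity) hY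
    have h8 : 2 * X / (A * Λ) * Real.log (128 * X) ≤ (2 / A + ε / 4) * X := by
      calc 2 * X / (A * Λ) * Real.log (128 * X) ≤ 2 * X / (A * Λ) * ((1 + η) * Λ) :=
            mul_le_mul_of_nonneg_left h6 (by positivity)
        _ = (2 / A + ε / 4) * X := by
            rw [hη]
            field_simp
            ring
    have h9 : 2 * X / ((s + 1) * Real.log 2) * Real.log (128 * X) ≤ 2 * X / (A * Λ) * Real.log (128 * X) :=
      mul_le_mul_of_nonneg_right h7 hℓ0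
    rw [hℓ] at *
    nlinarith
  have hLc : (L.card : ℝ) ≤ (x : ℝ) ^ (ε / 4) / 2 := by
    have h5 : L.card ≤ ⌊A / Real.log 2 * Real.log X⌋₊ + 1 := by
      rw [hL]
      refine (card_filter_le _ _).trans ?_
      rw [card_range]
    have h6 : (L.card : ℝ) ≤ A / Real.log 2 * Real.log X + 1 := by
      have h7 : (L.card : ℝ) ≤ (⌊A / Real.log 2 * Real.log X⌋₊ : ℝ) + 1 := by exact_mod_cast h5
      have h8 := Nat.floor_le (show (0 : ℝ) ≤ A / Real.log 2 * Real.log X by positivity)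
      linarith
    rw [le_div_iff₀ (by norm_num), Real.rpow_def_of_pos (by linarith), ← hX]
    have h9 : A / Real.log 2 * Real.log X + 1 ≤ Real.exp (A / Real.log 2 * Real.log X + 1) := by
      have := Real.add_one_le_exp (A / Real.log 2 * Real.log X + 1)
      linarith
    calc (L.card : ℝ) * 2 ≤ Real.exp (A / Real.log 2 * Real.log X + 1) * Real.exp (Real.log 2) := by
          rw [Real.exp_log (by norm_num)]
          linarith
      _ = Real.exp (Real.log 2 + (A / Real.log 2 * Real.log X + 1)) := by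
          rw [← Real.exp_add]
          congr 1
          ring
      _ ≤ Real.exp (X * (ε / 4)) := by
          rw [Real.exp_le_exp]
          linarith
  have hx1 : (1 : ℝ) ≤ x := by linarith
  have hx0 : (0 : ℝ) < x := by linarith
  have hfin : ((({p ∈ Icc 1 x | p.Prime ∧ ¬ (s₀ ≤ lev A p ∧ GoodAt (lev A p) p)} : Finset ℕ).card : ℕ) : ℝ) ≤
      (x : ℝ) ^ (2 / A) + (x : ℝ) ^ (ε / 4) / 2 * (x : ℝ) ^ (2 / A + ε / 2) := by
    have h5 := (card_le_card hsub).trans (card_union_le _ _)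
    have h6 : ((L.biUnion (fun s => {p ∈ Pool.Agent.H386R2.Artin.PP x | ¬ GoodAt s p})).card : ℝ) ≤
        L.card * (x : ℝ) ^ (2 / A + ε / 2) := by
      calc ((L.biUnion (fun s => {p ∈ Pool.Agent.H386R2.Artin.PP x | ¬ GoodAt s p})).card : ℝ) ≤
            ∑ s ∈ L, ((({p ∈ Pool.Agent.H386R2.Artin.PP x | ¬ GoodAt s p} : Finset ℕ).card : ℕ) : ℝ) := by
              exact_mod_cast card_biUnion_le
        _ ≤ ∑ _s ∈ L, (x : ℝ) ^ (2 / A + ε / 2) := sum_le_sum hone
        _ = _ := by rw [sum_const, nsmul_eq_mul]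
    have h7 : ((Icc 1 ⌊(x : ℝ) ^ (2 / A)⌋₊).card : ℝ) ≤ (x : ℝ) ^ (2 / A) := by
      rw [Nat.card_Icc, Nat.add_sub_cancel]
      exact Nat.floor_le (by positivity)
    have h8 : (((({p ∈ Icc 1 x | p.Prime ∧ ¬ (s₀ ≤ lev A p ∧ GoodAt (lev A p) p)} : Finset ℕ)).card : ℕ) : ℝ) ≤
        ((Icc 1 ⌊(x : ℝ) ^ (2 / A)⌋₊).card : ℝ) +
          ((L.biUnion (fun s => {p ∈ Pool.Agent.H386R2.Artin.PP x | ¬ GoodAt s p})).card : ℝ) := by
      exact_mod_cast h5
    have h9 : (L.card : ℝ) * (x : ℝ) ^ (2 / A + ε / 2) ≤ (x : ℝ) ^ (ε / 4) / 2 * (x : ℝ) ^ (2 / A + ε / 2) :=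
      mul_le_mul_of_nonneg_right hLc (by positivity)
    linarith
  refine hfin.trans ?_
  have e1 : (x : ℝ) ^ (ε / 4) * (x : ℝ) ^ (2 / A + ε / 2) = (x : ℝ) ^ (2 / A + 3 * ε / 4) := by
    rw [← Real.rpow_add hx0]
    congr 1
    ring
  have e2 : (x : ℝ) ^ (2 / A + ε) = (x : ℝ) ^ (ε / 4) * (x : ℝ) ^ (2 / A + 3 * ε / 4) := by
    rw [← Real.rpow_add hx0]
    congr 1
    ring
  have e3 : (x : ℝ) ^ (2 / A) ≤ (x : ℝ) ^ (2 / A + 3 * ε / 4) :=
    Real.rpow_le_rpow_of_exponent_le hx1 (by linarith)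
  have e4 : 0 ≤ (x : ℝ) ^ (2 / A + 3 * ε / 4) := by positivity
  rw [e2]
  nlinarith

end Pool.Agent.H563.TW
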