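import Pool.Agent.H563.TW.UnitCnt
import Pool.Agent.H563.TW.ThinOne

/-!
# A thin set of primes which generates the units modulo almost all primes
-/

set_option autoImplicit false

namespace Pool.Agent.H563.TW

open Finset Filter Topology
open scoped Classical

/-- the primes -/
abbrev Pr : Type := {p : ℕ // p.Prime}

instance (p : Pr) : Fact ((p : ℕ).Prime) := ⟨p.2⟩

instance (p : Pr) : NeZero (p : ℕ) := ⟨p.2.ne_zero⟩

instance (p : Pr) : Finite (ZMod (p : ℕ))ˣ := inferInstance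

theorem thinUnits (a : ℝ) (ha : 1 ≤ a) : ∃ C : ℝ, 0 < C ∧ ∃ B : Set ℕ, (∀ b ∈ B, b.Prime) ∧
    (∀ y : ℕ, 1 ≤ y → ({b | b ∈ B ∧ b ≤ y}.ncard : ℝ) ≤ C * (y : ℝ) ^ (1 / a)) ∧
    ∃ s₀ : ℕ, ∀ A : ℝ, a ≤ A → ∀ p : ℕ, p.Prime → s₀ ≤ lev A p → GoodAt (lev A p) p →
      Subgroup.closure {u : (ZMod p)ˣ | ∃ b ∈ B, (b : ℝ) ≤ 2 * (Real.log p) ^ A ∧ (u : ZMod p) = (b : ZMod p)} = ⊤ := by
  have ha0 : 0 < a := by linarith
  obtain ⟨C, hC, hthin⟩ := thinOne a ha0 4 (by norm_num)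
  refine ⟨C, hC, ?_⟩
  obtain ⟨s₁, hs₁, hlow⟩ := window_low
  obtain ⟨N, hN⟩ : ∃ N : ℕ → ℕ, ∀ s, N s = ⌊Real.exp (2 * ((2 : ℝ) ^ s) ^ (1 / a))⌋₊ := ⟨_, fun _ => rfl⟩
  obtain ⟨M, hM⟩ : ∃ M : ℕ → Finset Pr, ∀ s, M s =
      ((Icc 1 (N s)).subtype (fun p : ℕ => p.Prime)).filter (fun p : Pr => GoodAt s (p : ℕ)) := ⟨_, fun _ => rfl⟩
  have hNle : ∀ s, (N s : ℝ) ≤ Real.exp (4 * ((2 : ℝ) ^ s) ^ (1 / a)) := by
    intro s
    rw [hN]
    refine (Nat.floor_le (Real.exp_pos _).le).trans ?_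
    rw [Real.exp_le_exp]
    have : (0 : ℝ) ≤ ((2 : ℝ) ^ s) ^ (1 / a) := by positivity
    linarith
  obtain ⟨B, hB1, hB2, hB3⟩ := hthin (ι := Pr) (fun p => (ZMod (p : ℕ))ˣ) (fun p q => res (p : ℕ) q) s₁ M (by
      intro s _
      refine le_trans ?_ (hNle s)
      have : (M s).card ≤ N s := by
        rw [hM]
        refine (card_filter_le _ _).trans ?_
        rw [Finset.card_subtype]
        refine (card_filter_le _ _).trans ?_
        rw [Nat.card_Icc, Nat.add_sub_cancel]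
      exact_mod_cast this) (by
      intro s _ p hp
      refine le_trans ?_ (hNle s)
      rw [hM, mem_filter, Finset.mem_subtype, mem_Icc] at hp
      have h1 : Nat.card (ZMod (p : ℕ))ˣ ≤ N s := by
        rw [Nat.card_eq_fintype_card, ZMod.card_units_eq_totient, Nat.totient_prime p.2]
        omega
      exact_mod_cast h1) (by
      intro s hs p hp H hH
      rw [hM, mem_filter] at hp
      exact outside_unit (EE s) (hlow s hs).2 (fun q hq => by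
        unfold EE at hq
        rw [mem_PB] at hq
        exact hq.2) p p.2 hp.2 H hH)
  refine ⟨B, hB1, hB2, max s₁ 1, ?_⟩
  intro A hA p hp hs hg
  have hA0 : 0 < A := by linarith
  obtain ⟨s, hsd⟩ : ∃ s, s = lev A p := ⟨_, rfl⟩
  rw [← hsd] at hs hg
  have hp0 : (1 : ℝ) < p := by exact_mod_cast hp.one_lt
  have hlp0 : 0 < Real.log p := Real.log_pos hp0
  obtain ⟨m, hm⟩ : ∃ m : ℕ, m = ⌊(Real.log p) ^ A⌋₊ := ⟨_, rfl⟩
  have hsm : s = Nat.log 2 m := by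
    rw [hsd, hm]
    rfl
  have hm0 : m ≠ 0 := by
    rintro rfl
    rw [Nat.log_zero_right] at hsm
    have := (le_max_right s₁ 1).trans hs
    omega
  have h5 : 2 ^ s ≤ m := by
    rw [hsm]
    exact Nat.pow_log_le_self 2 hm0
  have h6 : m < 2 ^ (s + 1) := by
    rw [hsm]
    exact Nat.lt_pow_succ_log_self (by norm_num) m
  have h7 : (Real.log p) ^ A < 2 ^ (s + 1) := by
    have h8 : (Real.log p) ^ A < (m : ℝ) + 1 := by
      rw [hm]
      exact Nat.lt_floor_add_one _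
    have h9 : (m : ℝ) + 1 ≤ 2 ^ (s + 1) := by exact_mod_cast h6
    linarith
  have h8 : (m : ℝ) ≤ (Real.log p) ^ A := by
    rw [hm]
    exact Nat.floor_le (by positivity)
  have hlogle : Real.log p ≤ 2 * ((2 : ℝ) ^ s) ^ (1 / a) := by
    have e1 : Real.log p ≤ ((2 : ℝ) ^ (s + 1)) ^ (1 / A) := by
      have e2 := Real.rpow_le_rpow (by positivity) h7.le (show 0 ≤ 1 / A by positivity)
      rw [← Real.rpow_mul hlp0.le, mul_one_div_cancel hA0.ne', Real.rpow_one] at e2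
      exact e2
    have e3 : ((2 : ℝ) ^ (s + 1)) ^ (1 / A) ≤ ((2 : ℝ) ^ (s + 1)) ^ (1 / a) := by
      apply Real.rpow_le_rpow_of_exponent_le (one_le_pow₀ (by norm_num))
      exact one_div_le_one_div_of_le ha0 hA
    have e4 : ((2 : ℝ) ^ (s + 1)) ^ (1 / a) ≤ 2 * ((2 : ℝ) ^ s) ^ (1 / a) := by
      rw [pow_succ, Real.mul_rpow (by positivity) (by norm_num), mul_comm]
      apply mul_le_mul_of_nonneg_right _ (by positivity)
      calc (2 : ℝ) ^ (1 / a) ≤ 2 ^ (1 : ℝ) := by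
            apply Real.rpow_le_rpow_of_exponent_le (by norm_num)
            rw [div_le_one ha0]
            exact ha
        _ = 2 := Real.rpow_one 2
    linarith
  have hpN : p ≤ N s := by
    rw [hN]
    apply Nat.le_floor
    rw [← Real.log_le_iff_le_exp (by linarith)]
    exact hlogle
  have hmem : (⟨p, hp⟩ : Pr) ∈ M s := by
    rw [hM, mem_filter, Finset.mem_subtype, mem_Icc]
    exact ⟨⟨hp.one_le, hpN⟩, hg⟩
  have h9 := hB3 s ((le_max_left _ _).trans hs) _ hmem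
  rw [eq_top_iff, ← h9]
  apply Subgroup.closure_mono
  rintro u ⟨b, hb, -, hb2, hu⟩
  refine ⟨b, hb, ?_, hu⟩
  have e1 : (b : ℝ) ≤ 2 ^ (s + 1) := by exact_mod_cast hb2
  have e2 : (2 : ℝ) ^ s ≤ m := by exact_mod_cast h5
  rw [pow_succ] at e1
  linarith

/-- the exceptional primes are few -/
theorem few_exceptions (A : ℝ) (hA : 0 < A) (s₀ : ℕ) (ε : ℝ) (hε : 0 < ε) : ∃ K : ℝ, ∀ x : ℕ, 1 ≤ x →
    ((({p ∈ Icc 1 x | p.Prime ∧ ¬ (s₀ ≤ lev A p ∧ GoodAt (lev A p) p)} : Finset ℕ).card : ℕ) : ℝ) ≤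
      K * (x : ℝ) ^ (2 / A + ε) := by
  obtain ⟨x₀, hx₀⟩ := few A hA s₀ ε hε
  refine ⟨x₀ + 1, fun x hx => ?_⟩
  have hx1 : (1 : ℝ) ≤ x := by exact_mod_cast hx
  have h1 : (1 : ℝ) ≤ (x : ℝ) ^ (2 / A + ε) := Real.one_le_rpow hx1 (by positivity)
  have h0 : (0 : ℝ) ≤ x₀ := by positivity
  by_cases h : x₀ ≤ x
  · refine (hx₀ x h).trans ?_
    nlinarith
  · have h2 : (((({p ∈ Icc 1 x | p.Prime ∧ ¬ (s₀ ≤ lev A p ∧ GoodAt (lev A p) p)} : Finset ℕ)).card : ℕ) : ℝ) ≤ x := by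
      have : ({p ∈ Icc 1 x | p.Prime ∧ ¬ (s₀ ≤ lev A p ∧ GoodAt (lev A p) p)} : Finset ℕ).card ≤ x := by
        refine (card_filter_le _ _).trans ?_
        rw [Nat.card_Icc, Nat.add_sub_cancel]
      exact_mod_cast this
    have h3 : (x : ℝ) ≤ x₀ := by
      have : x ≤ x₀ := by omega
      exact_mod_cast this
    nlinarith

end Pool.Agent.H563.TW
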